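import Mathlib.Topology.Sheaves.Presheaf
import Mathlib.Algebra.Lie.OfAssociative
import Mathlib.RingTheory.Flat.TorsionFree
import Mathlib.Data.Int.Star
import Mathlib.Algebra.Order.Ring.Star
import Mathlib.Algebra.Module.StablyFree.Basic
import Mathlib.RingTheory.PicardGroup
import Mathlib.Algebra.Order.Star.Real
import Mathlib.Algebra.Ring.IsFormallyReal
import Mathlib.NumberTheory.LegendreSymbol.AddCharacter
import Mathlib.FieldTheory.Finite.Extension
import Mathlib.RingTheory.PiTensorProduct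
import Mathlib.RingTheory.SimpleRing.Principal
import Mathlib.Order.CompletePartialOrder
import Mathlib.RingTheory.TotallySplit
import Mathlib.RingTheory.Etale.Weakly
import Mathlib.RingTheory.Henselian
import Mathlib.RingTheory.RegularLocalRing.Defs
import Mathlib.Tactic.Polynomial.Basic

-- ======== part 0: formerly Pool.Agent.MP_e262d6_nt.h61.Newton
section MrgPart0

/-! Newton's identities for multiplicative functions on monic polynomials over a finite field.
The counting lemmas follow the module WEIL of project E287. -/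

set_option autoImplicit false

noncomputable section

namespace Pool.Agent.MP_e262d6_nt.H61

open Polynomial Finset IntermediateField

variable {F : Type} [Field F] [Fintype F] [DecidableEq F]

omit [DecidableEq F] in
theorem mon_finite (n : ℕ) : {h : F[X] | h.Monic ∧ h.natDegree = n}.Finite := by
  have : Finite (degreeLT F n) := Finite.of_equiv _ (degreeLTEquiv F n).toEquiv.symm
  have h2 : Finite {h : F[X] // h.Monic ∧ h.natDegree = n} :=
    Finite.of_equiv _ (monicEquivDegreeLT n).symm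
  exact Set.finite_coe_iff.mp h2

/-- monic polynomials of degree `n` -/
def Mon (F : Type) [Field F] [Fintype F] (n : ℕ) : Finset F[X] :=
  (mon_finite (F := F) n).toFinset

omit [DecidableEq F] in
theorem mem_Mon {n : ℕ} {h : F[X]} : h ∈ Mon F n ↔ h.Monic ∧ h.natDegree = n := by
  simp [Mon]

/-- the characteristic polynomial of `x` over `F` -/
def chp (F : Type) [Field F] {E : Type} [Field E] [Algebra F E] (x : E) : F[X] :=
  minpoly F x ^ (Module.finrank F E / (minpoly F x).natDegree)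

open Classical UniqueFactorizationMonoid in
/-- the number of elements of the extension of degree `k` whose characteristic polynomial
divides `h` -/
def cnt (k : ℕ) (h : F[X]) : ℕ :=
  ∑ π ∈ (normalizedFactors h).toFinset,
    if π.natDegree ∣ k ∧ π ^ (k / π.natDegree) ∣ h then π.natDegree else 0

section ext

variable {E : Type} [Field E] [Fintype E] [Algebra F E]

omit [Fintype F] [DecidableEq F] in
theorem finrank_adjoin_eq (x : E) :
    Module.finrank F⟮x⟯ E = Module.finrank F E / (minpoly F x).natDegree := by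
  have hx : IsIntegral F x := .of_finite F x
  have h1 := Module.finrank_mul_finrank F F⟮x⟯ E
  rw [adjoin.finrank hx] at h1
  rw [← h1, Nat.mul_div_cancel_left _ (minpoly.natDegree_pos hx)]

omit [Fintype F] [DecidableEq F] in
theorem deg_minpoly_dvd (x : E) : (minpoly F x).natDegree ∣ Module.finrank F E := by
  have hx : IsIntegral F x := .of_finite F x
  have h1 := Module.finrank_mul_finrank F F⟮x⟯ E
  rw [adjoin.finrank hx] at h1
  exact ⟨_, h1.symm⟩

omit [Fintype F] [DecidableEq F] in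
theorem deg_minpoly_inv_le {x : E} (hx : x ≠ 0) :
    (minpoly F x⁻¹).natDegree ≤ (minpoly F x).natDegree := by
  have hi : IsIntegral F x := .of_finite F x
  have h0 : (minpoly F x).reverse ≠ 0 := by
    rw [Ne, reverse_eq_zero]
    exact minpoly.ne_zero hi
  let := invertibleOfNonzero hx
  have h1 : aeval x⁻¹ (minpoly F x).reverse = 0 := by
    rw [aeval_def, ← invOf_eq_inv, eval₂_reverse_eq_zero_iff, ← aeval_def]
    exact minpoly.aeval F x
  exact (natDegree_le_of_dvd (minpoly.dvd F _ h1) h0).trans (reverse_natDegree_le _)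

omit [Fintype F] [DecidableEq F] in
theorem deg_minpoly_inv {x : E} (hx : x ≠ 0) :
    (minpoly F x⁻¹).natDegree = (minpoly F x).natDegree := by
  refine le_antisymm (deg_minpoly_inv_le hx) ?_
  have := deg_minpoly_inv_le (F := F) (inv_ne_zero hx)
  rwa [inv_inv] at this

omit [Fintype F] [DecidableEq F] in
theorem nextCoeff_minpoly_inv {x : E} (hx : x ≠ 0) :
    (minpoly F x⁻¹).nextCoeff = (minpoly F x).coeff 1 / (minpoly F x).coeff 0 := by
  have hi : IsIntegral F x := .of_finite F x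
  have hi' : IsIntegral F x⁻¹ := .of_finite F _
  set m := minpoly F x with hm
  have hc0 : m.coeff 0 ≠ 0 := minpoly.coeff_zero_ne_zero hi hx
  have hpos : 0 < m.natDegree := minpoly.natDegree_pos hi
  have htd : m.natTrailingDegree = 0 := natTrailingDegree_eq_zero.mpr (Or.inr hc0)
  have hdeg : m.reverse.natDegree = m.natDegree := by rw [reverse_natDegree, htd, Nat.sub_zero]
  have hlc : m.reverse.leadingCoeff = m.coeff 0 := by
    rw [reverse_leadingCoeff, trailingCoeff, htd]
  let := invertibleOfNonzero hx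
  have h1 : aeval x⁻¹ m.reverse = 0 := by
    rw [aeval_def, ← invOf_eq_inv, eval₂_reverse_eq_zero_iff, ← aeval_def]
    exact minpoly.aeval F x
  have hmon : (C (m.coeff 0)⁻¹ * m.reverse).Monic := by
    rw [Monic, leadingCoeff_mul, leadingCoeff_C, hlc, inv_mul_cancel₀ hc0]
  have hdeg2 : (C (m.coeff 0)⁻¹ * m.reverse).natDegree = m.natDegree := by
    rw [natDegree_C_mul (inv_ne_zero hc0), hdeg]
  have heq : C (m.coeff 0)⁻¹ * m.reverse = minpoly F x⁻¹ := by
    refine minpoly.unique_of_degree_le_degree_minpoly F _ hmon (by simp [h1]) ?_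
    rw [degree_eq_natDegree hmon.ne_zero, degree_eq_natDegree (minpoly.ne_zero hi'), hdeg2,
      deg_minpoly_inv hx]
  rw [← heq, nextCoeff_of_natDegree_pos (by omega), hdeg2, coeff_C_mul, coeff_reverse,
    revAt_le (by omega)]
  have : m.natDegree - (m.natDegree - 1) = 1 := by omega
  rw [this]
  field_simp

omit [Fintype F] [DecidableEq F] in
theorem chp_monic (x : E) : (chp F x).Monic := (minpoly.monic (.of_finite F x)).pow _

omit [Fintype F] [DecidableEq F] in
theorem chp_natDegree (x : E) : (chp F x).natDegree = Module.finrank F E := by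
  rw [chp, natDegree_pow, Nat.div_mul_cancel (deg_minpoly_dvd x)]

theorem card_fiber {π : F[X]} (hi : Irreducible π) (hm : π.Monic)
    (hd : π.natDegree ∣ Module.finrank F E) :
    (univ.filter fun x : E => minpoly F x = π).card = π.natDegree := by
  classical
  have h1 := (hi.natDegree_dvd_iff_dvd_X_pow_card_pow_sub_X).mp hd
  rw [← Module.natCard_eq_pow_finrank, Nat.card_eq_fintype_card] at h1
  have hne : (X ^ Fintype.card E - X : F[X]) ≠ 0 :=
    FiniteField.X_pow_card_sub_X_ne_zero F Fintype.one_lt_card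
  have hs : (π.map (algebraMap F E)).Splits :=
    Splits.of_dvd (FiniteField.isSplittingField_sub E F).splits (map_ne_zero hne)
      (map_dvd (algebraMap F E) h1)
  rw [← card_rootSet_eq_natDegree (PerfectField.separable_of_irreducible hi) hs,
    ← Set.toFinset_card]
  congr 1
  ext x
  simp only [mem_filter, mem_univ, true_and, Set.mem_toFinset, mem_rootSet_of_ne hm.ne_zero]
  constructor
  · rintro rfl
    exact minpoly.aeval F x
  · intro h
    exact (minpoly.eq_of_irreducible_of_monic hi h hm).symm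

open Classical UniqueFactorizationMonoid in
theorem card_chp_dvd {h : F[X]} (hh : h ≠ 0) :
    (univ.filter fun x : E => chp F x ∣ h).card = cnt (Module.finrank F E) h := by
  have hpos : 0 < Module.finrank F E := Module.finrank_pos
  rw [cnt, Finset.card_eq_sum_card_fiberwise (f := fun x : E => minpoly F x)
    (t := (normalizedFactors h).toFinset)]
  · refine Finset.sum_congr (by congr) fun π hπ => ?_
    obtain ⟨hi, hm, -⟩ := (Polynomial.mem_normalizedFactors_iff hh).mp (Multiset.mem_toFinset.mp hπ)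
    split_ifs with hc
    · rw [← card_fiber hi hm hc.1, Finset.filter_filter]
      congr 1
      ext x
      simp only [mem_filter, mem_univ, true_and, and_iff_right_iff_imp]
      rintro rfl
      exact hc.2
    · rw [Finset.card_eq_zero, Finset.filter_filter, Finset.filter_eq_empty_iff]
      rintro x - ⟨h1, rfl⟩
      exact hc ⟨deg_minpoly_dvd x, h1⟩
  · intro x hx
    have hi : IsIntegral F x := .of_finite F x
    simp only [coe_filter, mem_univ, true_and, Set.mem_ofPred_eq] at hx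
    simp only [Multiset.mem_toFinset, mem_coe]
    refine (Polynomial.mem_normalizedFactors_iff hh).mpr
      ⟨minpoly.irreducible hi, minpoly.monic hi, dvd_trans (dvd_pow_self _ ?_) hx⟩
    exact (Nat.div_pos (Nat.le_of_dvd hpos (deg_minpoly_dvd x)) (minpoly.natDegree_pos hi)).ne'

end ext

omit [Fintype F] in
open Classical UniqueFactorizationMonoid in
theorem sum_deg {h : F[X]} (hh : h.Monic) : ∑ k ∈ Icc 1 h.natDegree, cnt k h = h.natDegree := by
  have h0 := hh.ne_zero
  unfold cnt
  rw [Finset.sum_comm]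
  have h1 : ∀ π ∈ (normalizedFactors h).toFinset, ∑ k ∈ Icc 1 h.natDegree,
      (if π.natDegree ∣ k ∧ π ^ (k / π.natDegree) ∣ h then π.natDegree else 0) =
      (normalizedFactors h).count π • π.natDegree := by
    intro π hπ
    obtain ⟨hi, hm, -⟩ := (Polynomial.mem_normalizedFactors_iff h0).mp (Multiset.mem_toFinset.mp hπ)
    have hpos : 0 < π.natDegree := hi.natDegree_pos
    have hiff : ∀ e : ℕ, π ^ e ∣ h ↔ e ≤ (normalizedFactors h).count π := by
      intro e
      rw [pow_dvd_iff_le_emultiplicity, emultiplicity_eq_count_normalizedFactors hi h0,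
        hm.normalize_eq_self, Nat.cast_le]
    rw [← Finset.sum_filter, Finset.sum_const]
    congr 1
    have hc : (Icc 1 ((normalizedFactors h).count π)).card = (normalizedFactors h).count π := by
      simp
    rw [← hc]
    symm
    refine Finset.card_bij (fun e _ => e * π.natDegree) ?_ ?_ ?_
    · intro e he
      obtain ⟨he1, he2⟩ := mem_Icc.mp he
      have hd := (hiff e).mpr he2
      have := natDegree_le_of_dvd hd h0
      rw [natDegree_pow] at this
      refine mem_filter.mpr ⟨mem_Icc.mpr ⟨Nat.mul_pos he1 hpos, this⟩, dvd_mul_left _ _, ?_⟩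
      rwa [Nat.mul_div_cancel _ hpos]
    · intro e _ e' _ hee
      exact Nat.eq_of_mul_eq_mul_right hpos hee
    · intro k hk
      obtain ⟨hk1, hk2, hk3⟩ := mem_filter.mp hk
      refine ⟨k / π.natDegree, mem_Icc.mpr ⟨?_, (hiff _).mp hk3⟩, Nat.div_mul_cancel hk2⟩
      exact Nat.div_pos (Nat.le_of_dvd (mem_Icc.mp hk1).1 hk2) hpos
  rw [Finset.sum_congr rfl h1, ← Finset.sum_multiset_map_count,
    ← natDegree_multiset_prod_of_monic]
  · have := leadingCoeff_mul_prod_normalizedFactors h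
    rw [hh.leadingCoeff, C_1, one_mul] at this
    rw [this]
  · intro π hπ
    exact ((Polynomial.mem_normalizedFactors_iff h0).mp hπ).2.1

variable {R : Type} [CommRing R] (l : F[X] → R)

/-- the coefficients of the L-series -/
def cc (n : ℕ) : R := ∑ h ∈ Mon F n, l h

/-- the power sums -/
def ps (k : ℕ) : R := ∑ h ∈ Mon F k, (cnt k h : R) * l h

omit [DecidableEq F] in
theorem cc_zero (h1 : l 1 = 1) : cc l 0 = 1 := by
  have : Mon F 0 = {1} := by
    ext h
    rw [mem_Mon, mem_singleton]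
    constructor
    · rintro ⟨h1, h2⟩
      exact h1.natDegree_eq_zero.mp h2
    · rintro rfl
      simp
  rw [cc, this, sum_singleton, h1]

variable (hm : ∀ g h : F[X], g.Monic → h.Monic → l (g * h) = l g * l h)
include hm

omit [DecidableEq F] in
open Classical in
theorem mul_cc {g : F[X]} (hg : g.Monic) {n : ℕ} (hk : g.natDegree ≤ n) :
    l g * cc l (n - g.natDegree) = ∑ h ∈ Mon F n, if g ∣ h then l h else 0 := by
  rw [← Finset.sum_filter, cc, Finset.mul_sum]
  refine Finset.sum_bij (fun u _ => g * u) ?_ ?_ ?_ ?_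
  · intro u hu
    obtain ⟨hm, hd⟩ := mem_Mon.mp hu
    refine mem_filter.mpr ⟨mem_Mon.mpr ⟨hg.mul hm, ?_⟩, dvd_mul_right _ _⟩
    rw [hg.natDegree_mul hm, hd]
    omega
  · intro u _ v _ huv
    exact mul_left_cancel₀ hg.ne_zero huv
  · intro h hh
    obtain ⟨hh, u, rfl⟩ := mem_filter.mp hh
    obtain ⟨hm, hd⟩ := mem_Mon.mp hh
    have hu : u.Monic := hg.of_mul_monic_left hm
    refine ⟨u, mem_Mon.mpr ⟨hu, ?_⟩, rfl⟩
    rw [hg.natDegree_mul hu] at hd
    omega
  · intro u hu
    rw [hm _ _ hg (mem_Mon.mp hu).1]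

open Classical in
theorem ext_mul {E : Type} [Field E] [Fintype E] [Algebra F E] {k n : ℕ}
    (hE : Module.finrank F E = k) (hk : k ≤ n) :
    (∑ x : E, l (chp F x)) * cc l (n - k) = ∑ h ∈ Mon F n, (cnt k h : R) * l h := by
  rw [Finset.sum_mul]
  have h2 : ∀ x : E, l (chp F x) * cc l (n - k) =
      ∑ h ∈ Mon F n, if chp F x ∣ h then l h else 0 := by
    intro x
    have hd : (chp F x).natDegree = k := by rw [chp_natDegree, hE]
    rw [← mul_cc l hm (chp_monic x) (hd.le.trans hk), hd]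
  simp_rw [h2]
  rw [Finset.sum_comm]
  refine Finset.sum_congr rfl fun h hh => ?_
  rw [← Finset.sum_filter, Finset.sum_const, nsmul_eq_mul, card_chp_dvd (mem_Mon.1 hh).1.ne_zero,
    hE]

theorem ext_eq (h1 : l 1 = 1) {E : Type} [Field E] [Fintype E] [Algebra F E] {k : ℕ}
    (hE : Module.finrank F E = k) : ∑ x : E, l (chp F x) = ps l k := by
  have := ext_mul l hm hE le_rfl
  rwa [Nat.sub_self, cc_zero l h1, mul_one] at this

theorem newton (h1 : l 1 = 1) (n : ℕ) :
    (n : R) * cc l n = ∑ k ∈ Icc 1 n, ps l k * cc l (n - k) := by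
  obtain ⟨p, hp⟩ := CharP.exists F
  have : Fact p.Prime := ⟨CharP.char_is_prime F p⟩
  have h2 : ∀ k ∈ Icc 1 n, ps l k * cc l (n - k) = ∑ h ∈ Mon F n, (cnt k h : R) * l h := by
    intro k hk
    obtain ⟨hk1, hk2⟩ := mem_Icc.mp hk
    have : NeZero k := ⟨by omega⟩
    have := Fintype.ofFinite (FiniteField.Extension F p k)
    have hE := FiniteField.finrank_extension F p k
    rw [← ext_eq l hm h1 hE, ext_mul l hm hE hk2]
  rw [Finset.sum_congr rfl h2, Finset.sum_comm, cc, Finset.mul_sum]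
  refine Finset.sum_congr rfl fun h hh => ?_
  obtain ⟨hm, hd⟩ := mem_Mon.mp hh
  rw [← Finset.sum_mul, ← Nat.cast_sum, ← hd, sum_deg hm]

/-- the lifting formula in degree five for an L-series of degree two -/
theorem five (h1 : l 1 = 1) (h3 : cc l 3 = 0) (h4 : cc l 4 = 0) (h5 : cc l 5 = 0)
    {E : Type} [Field E] [Fintype E] [Algebra F E] (hE : Module.finrank F E = 5) :
    ∑ x : E, l (chp F x) = cc l 1 ^ 5 - 5 * cc l 1 ^ 3 * cc l 2 + 5 * cc l 1 * cc l 2 ^ 2 := by
  have h0 := cc_zero l h1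
  have e1 := newton l hm h1 1
  have e2 := newton l hm h1 2
  have e3 := newton l hm h1 3
  have e4 := newton l hm h1 4
  have e5 := newton l hm h1 5
  rw [ext_eq l hm h1 hE]
  simp only [Finset.sum_Icc_succ_top (show 1 ≤ 4 + 1 by norm_num),
    Finset.sum_Icc_succ_top (show 1 ≤ 3 + 1 by norm_num),
    Finset.sum_Icc_succ_top (show 1 ≤ 2 + 1 by norm_num),
    Finset.sum_Icc_succ_top (show 1 ≤ 1 + 1 by norm_num), Icc_self, sum_singleton,
    Nat.reduceAdd, Nat.reduceSub, h0, h3, h4, h5, mul_zero, mul_one, Nat.cast_ofNat,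
    Nat.cast_one, one_mul, zero_add, add_zero] at e1 e2 e3 e4 e5
  have f2 : ps l 2 = 2 * cc l 2 - cc l 1 ^ 2 := by rw [← e1] at e2; linear_combination -e2
  have f3 : ps l 3 = cc l 1 ^ 3 - 3 * cc l 1 * cc l 2 := by
    rw [← e1, f2] at e3; linear_combination -e3
  have f4 : ps l 4 = -cc l 1 ^ 4 + 4 * cc l 1 ^ 2 * cc l 2 - 2 * cc l 2 ^ 2 := by
    rw [f2, f3] at e4; linear_combination -e4
  rw [f3, f4] at e5
  linear_combination -e5

end Pool.Agent.MP_e262d6_nt.H61

end
end MrgPart0

-- ======== part 1: formerly Pool.Agent.MP_e262d6_nt.h61.Kloo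
section MrgPart1

/-! Moments of Kloosterman sums in characteristic two. -/

set_option autoImplicit false
set_option linter.unusedSectionVars false

noncomputable section

namespace Pool.Agent.MP_e262d6_nt.H61

open Finset

/-- a real additive character, invariant under squaring and not trivial -/
structure Chr (K : Type) [Field K] where
  ψ : AddChar K ℝ
  sq : ∀ x, ψ (x ^ 2) = ψ x
  ne : ∃ x, ψ x ≠ 1

variable {K : Type} [Field K] [Fintype K] [DecidableEq K] [CharP K 2]

theorem two_zero : (2 : K) = 0 := CharTwo.two_eq_zero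

theorem sq_bij : Function.Bijective fun x : K => x ^ 2 :=
  Finite.injective_iff_bijective.1 fun x y h => by
    have h1 : (x - y) ^ 2 = 0 := by
      have h : x ^ 2 = y ^ 2 := h
      linear_combination h + (y ^ 2 - x * y) * (two_zero (K := K))
    exact sub_eq_zero.1 (pow_eq_zero_iff two_ne_zero |>.1 h1)

theorem sum_mul_left {M : Type} [AddCommMonoid M] {c : K} (hc : c ≠ 0) (f : K → M) :
    ∑ x, f (c * x) = ∑ x, f x := Equiv.sum_comp (Equiv.mulLeft₀ c hc) f

theorem sum4_comm {ι κ : Type} (s t : Finset ι) (u v : Finset κ) (f : ι → ι → κ → κ → ℝ) :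
    ∑ a ∈ s, ∑ b ∈ t, ∑ c ∈ u, ∑ d ∈ v, f a b c d =
      ∑ c ∈ u, ∑ d ∈ v, ∑ a ∈ s, ∑ b ∈ t, f a b c d := by
  rw [← sum_product', sum_comm]
  refine sum_congr rfl fun c _ => ?_
  rw [sum_comm]
  exact sum_congr rfl fun d _ => sum_product' s t fun a b => f a b c d

/-- the nonzero elements -/
def U (K : Type) [Field K] [Fintype K] [DecidableEq K] : Finset K := univ.erase 0

theorem mem_U {x : K} : x ∈ U K ↔ x ≠ 0 := by simp [U]

theorem card_U : ((U K).card : ℝ) = Fintype.card K - 1 := by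
  rw [U, card_erase_of_mem (mem_univ _), card_univ, Nat.cast_sub Fintype.card_pos, Nat.cast_one]

theorem sum_U (f : K → ℝ) : ∑ x ∈ U K, f x = ∑ x, f x - f 0 := by
  rw [U, ← add_sum_erase _ _ (mem_univ (0 : K))]; ring

theorem sum_ite_U (f : K → ℝ) : ∑ x, (if x = 0 then 0 else f x) = ∑ x ∈ U K, f x := by
  rw [← add_sum_erase _ _ (mem_univ (0 : K)), if_pos rfl, zero_add]
  exact sum_congr rfl fun x hx => if_neg (mem_U.1 hx)

theorem sum_U_mul {c : K} (hc : c ≠ 0) (f : K → ℝ) : ∑ x ∈ U K, f (c * x) = ∑ x ∈ U K, f x := by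
  rw [sum_U, sum_U, sum_mul_left hc, mul_zero]

/-- `u + 1 / u` -/
def D (u : K) : K := u + u⁻¹

theorem D_one : D (1 : K) = 0 := by rw [D, inv_one]; exact CharTwo.add_self_eq_zero _

theorem D_inv (u : K) : D u⁻¹ = D u := by rw [D, D, inv_inv, add_comm]

theorem D_eq_iff {u v : K} (hu : u ≠ 0) (hv : v ≠ 0) : D u + D v = 0 ↔ v = u ∨ v = u⁻¹ := by
  have h1 : D u + D v = (v - u) * (v - u⁻¹) / v := by
    rw [D, D]
    field_simp
    linear_combination (v * u ^ 2 + v) * (two_zero (K := K))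
  rw [h1, div_eq_zero_iff, or_iff_left hv, mul_eq_zero, sub_eq_zero, sub_eq_zero]

theorem D_ne {u : K} (hu : u ≠ 0) (h1 : u ≠ 1) : D u ≠ 0 := fun h => by
  have := (D_eq_iff one_ne_zero hu).1 (by rw [h, D_one, add_zero])
  rw [inv_one, or_self] at this
  exact h1 this

namespace Chr

variable (C : Chr K)

theorem add (x y : K) : C.ψ (x + y) = C.ψ x * C.ψ y := AddChar.map_add_eq_mul _ _ _

theorem zero : C.ψ 0 = 1 := AddChar.map_zero_eq_one _

theorem mul_self (x : K) : C.ψ x * C.ψ x = 1 := by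
  rw [← C.add, CharTwo.add_self_eq_zero, C.zero]

theorem pm (x : K) : C.ψ x = 1 ∨ C.ψ x = -1 := mul_self_eq_one_iff.1 (C.mul_self x)

theorem sum_mul (c : K) : ∑ x, C.ψ (x * c) = if c = 0 then (Fintype.card K : ℝ) else 0 := by
  split_ifs with h
  · simp [h]
  · simp only [mul_comm _ c]
    rw [sum_mul_left h fun x => C.ψ x]
    obtain ⟨x, hx⟩ := C.ne
    exact AddChar.sum_eq_zero_of_ne_one fun h => hx (by rw [h]; rfl)

/-- the terms of the Kloosterman sum -/
def E (β u : K) : ℝ := if u = 0 then 0 else C.ψ (β * D u)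

/-- the Kloosterman sum -/
def Kl (γ : K) : ℝ := ∑ u, C.E γ u

theorem Kl_eq (γ : K) : C.Kl γ = ∑ u ∈ U K, C.ψ (γ * D u) := sum_ite_U _

theorem Kl_zero : C.Kl 0 = Fintype.card K - 1 := by
  simp only [Kl_eq, zero_mul, C.zero, sum_const, nsmul_eq_mul, mul_one, card_U]

theorem E_inv (β u : K) : C.E β u⁻¹ = C.E β u := by simp only [E, D_inv, inv_eq_zero]

/-- the Kloosterman sum attached to `g` -/
def Kp (β g : K) : ℝ := if g = 0 then 0 else C.Kl (β * D g)

theorem conv (β g : K) : ∑ v, C.E β v * C.E β (v * g ^ 2) = C.Kp β g := by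
  unfold Kp
  split_ifs with hg
  · simp [hg, E]
  · rw [← sum_mul_left (inv_ne_zero hg), Kl]
    refine sum_congr rfl fun b _ => ?_
    unfold E
    by_cases hb : b = 0
    · simp [hb]
    · rw [if_neg hb, if_neg (by simp [hb, hg]), if_neg (by simp [hb, hg]), ← C.add]
      congr 1
      simp only [D]
      field_simp
      ring

theorem Q2 {α : K} (hα : α ≠ 0) : ∑ β ∈ U K, C.Kl (β * α) ^ 2 =
    (Fintype.card K : ℝ) ^ 2 - Fintype.card K - 1 := by
  have h1 : ∑ β, C.Kl (β * α) ^ 2 =
      ∑ u ∈ U K, ∑ v ∈ U K, if v = u ∨ v = u⁻¹ then (Fintype.card K : ℝ) else 0 := by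
    simp only [Kl_eq, pow_two, sum_mul_sum, ← C.add]
    rw [sum_comm]
    refine sum_congr rfl fun u hu => ?_
    rw [sum_comm]
    refine sum_congr rfl fun v hv => ?_
    rw [← if_congr (D_eq_iff (mem_U.1 hu) (mem_U.1 hv)) rfl rfl, ← if_congr (mul_eq_zero.trans
      (or_iff_right hα)) rfl rfl, ← C.sum_mul]
    exact sum_congr rfl fun β _ => by congr 1; ring
  have h2 : ∀ u ∈ U K, ∑ v ∈ U K, (if v = u ∨ v = u⁻¹ then (Fintype.card K : ℝ) else 0) =
      2 * Fintype.card K - if u = 1 then (Fintype.card K : ℝ) else 0 := by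
    intro u hu
    have hu' : u⁻¹ ∈ U K := mem_U.2 (inv_ne_zero (mem_U.1 hu))
    split_ifs with h
    · simp only [h, inv_one, or_self, sum_ite_eq', mem_U, ne_eq, one_ne_zero, not_false_eq_true,
        if_true]
      ring
    · have h3 : u ≠ u⁻¹ := fun e => D_ne (mem_U.1 hu) h (by rw [D, ← e, CharTwo.add_self_eq_zero])
      have h4 : ∀ v, (if v = u ∨ v = u⁻¹ then (Fintype.card K : ℝ) else 0) =
          (if v = u then (Fintype.card K : ℝ) else 0) +
            if v = u⁻¹ then (Fintype.card K : ℝ) else 0 := by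
        intro v
        by_cases k1 : v = u
        · simp [k1, h3]
        · simp [k1]
      simp only [h4, sum_add_distrib, sum_ite_eq', hu, hu', if_true]
      ring
  rw [sum_U, h1, sum_congr rfl h2, sum_sub_distrib, sum_ite_eq', if_pos (mem_U.2 one_ne_zero),
    sum_const, nsmul_eq_mul, card_U, zero_mul, Kl_zero]
  ring

theorem Kl_alt {γ : K} (hγ : γ ≠ 0) : C.Kl γ = ∑ x ∈ U K, C.ψ (x + γ ^ 2 * x⁻¹) := by
  rw [Kl_eq, ← sum_U_mul hγ fun x => C.ψ (x + γ ^ 2 * x⁻¹)]
  refine sum_congr rfl fun u hu => ?_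
  have := mem_U.1 hu
  congr 1
  rw [D]
  field_simp

theorem count_le {A B G : K} (hA : A ≠ 0) (hB : B ≠ 0) (hG : G ≠ 0) :
    ∑ x ∈ U K, ∑ y ∈ U K, ((if x + y + 1 = 0 then (Fintype.card K : ℝ) else 0) - 1) *
      (if A * x⁻¹ + B * y⁻¹ + G = 0 then (Fintype.card K : ℝ) else 0) ≤
      Fintype.card K * (Fintype.card K + 2) := by
  set r : ℝ := (Fintype.card K : ℝ) with hr
  have hr0 : 0 ≤ r := Nat.cast_nonneg _
  set S := univ.filter fun x : K => G * x ^ 2 + (A + B + G) * x + A = 0 with hS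
  have h1 : S.card ≤ 2 := by
    refine le_trans (Polynomial.card_le_degree_of_subset_roots (p := Polynomial.C G *
      Polynomial.X ^ 2 + Polynomial.C (A + B + G) * Polynomial.X + Polynomial.C A)
      fun x hx => ?_) Polynomial.natDegree_quadratic_le
    rw [Polynomial.mem_roots (fun h => hG (by simpa using congrArg (·.coeff 2) h))]
    simpa using (mem_filter.1 hx).2
  have h2 : ∀ x ∈ U K, ∑ y ∈ U K, ((if x + y + 1 = 0 then r else 0) - 1) *
      (if A * x⁻¹ + B * y⁻¹ + G = 0 then r else 0) ≤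
      (if x ∈ S then r * r else 0) - (r - if x = A / G then r else 0) := by
    intro x hx
    have hx0 := mem_U.1 hx
    simp only [sub_mul, sum_sub_distrib, one_mul]
    refine sub_le_sub ?_ ?_
    · calc _ ≤ ∑ y ∈ U K, if y = x + 1 then (if x ∈ S then r * r else 0) else 0 := by
            refine sum_le_sum fun y hy => ?_
            have hy0 := mem_U.1 hy
            by_cases k1 : x + y + 1 = 0
            · have k2 : y = x + 1 := by linear_combination k1 - (x + 1) * (two_zero (K := K))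
              rw [if_pos k1, if_pos k2]
              by_cases k3 : A * x⁻¹ + B * y⁻¹ + G = 0
              · rw [if_pos k3, if_pos]
                field_simp at k3
                rw [k2] at k3
                exact mem_filter.2 ⟨mem_univ _, by linear_combination k3⟩
              · rw [if_neg k3, mul_zero]
                positivity
            · rw [if_neg k1, zero_mul]
              positivity
        _ ≤ _ := by
            rw [sum_ite_eq']
            split_ifs <;> first | rfl | positivity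
    · split_ifs with k
      · rw [sub_self]
        exact sum_nonneg fun _ _ => by positivity
      · have k1 : A * x⁻¹ + G ≠ 0 := fun h => k (by
          field_simp at h ⊢
          linear_combination h - A * (two_zero (K := K)))
        have k2 := single_le_sum (f := fun y => if A * x⁻¹ + B * y⁻¹ + G = 0 then r else 0)
          (fun _ _ => by positivity) (mem_U.2 (div_ne_zero hB k1))
        rw [if_pos (by
          rw [inv_div, mul_div_cancel₀ _ hB]
          linear_combination (A * x⁻¹ + G) * (two_zero (K := K)))] at k2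
        rwa [sub_zero]
  refine (sum_le_sum h2).trans ?_
  rw [sum_sub_distrib, sum_sub_distrib, sum_ite_eq', if_pos (mem_U.2 (div_ne_zero hA hG)),
    sum_const, nsmul_eq_mul, card_U, sum_ite_mem, sum_const, nsmul_eq_mul, ← hr]
  have h3 : ((U K ∩ S).card : ℝ) ≤ 2 := by
    exact_mod_cast (card_le_card inter_subset_right).trans h1
  nlinarith [mul_nonneg hr0 hr0]

theorem Q3 {α γ ε : K} (hα : α ≠ 0) (hγ : γ ≠ 0) (hε : ε ≠ 0) :
    ∑ β ∈ U K, C.Kl (β * α) * C.Kl (β * γ) * C.Kl (β * ε) ≤ ((Fintype.card K : ℝ) + 1) ^ 2 := by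
  set k : K → ℝ := fun t => ∑ x ∈ U K, C.ψ (x + t * x⁻¹) with hk
  have k0 : k 0 = -1 := by
    have := C.sum_mul 1
    simp only [mul_one, one_ne_zero, if_false] at this
    simp only [hk, zero_mul, add_zero, sum_U, this, C.zero, zero_sub]
  have h1 : ∑ β ∈ U K, C.Kl (β * α) * C.Kl (β * γ) * C.Kl (β * ε) =
      ∑ β, k (β * α ^ 2) * k (β * γ ^ 2) * k (β * ε ^ 2) + 1 := by
    rw [← sq_bij.sum_comp, sum_congr rfl fun β hβ => by
      rw [C.Kl_alt (mul_ne_zero (mem_U.1 hβ) hα), C.Kl_alt (mul_ne_zero (mem_U.1 hβ) hγ),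
        C.Kl_alt (mul_ne_zero (mem_U.1 hβ) hε)], sum_U]
    simp only [mul_pow, zero_pow two_ne_zero, zero_mul]
    have := k0
    simp only [hk, zero_mul] at this
    rw [this]
    ring
  have h2 : ∑ β, k (β * α ^ 2) * k (β * γ ^ 2) * k (β * ε ^ 2) =
      ∑ z ∈ U K, ∑ β, ∑ x ∈ U K, ∑ y ∈ U K,
        C.ψ (z * (x + y + 1)) * C.ψ (β * (α ^ 2 * x⁻¹ + γ ^ 2 * y⁻¹ + ε ^ 2)) := by
    simp only [hk, mul_sum _ _ (_ * _)]
    rw [sum_comm]
    refine sum_congr rfl fun z hz => ?_
    have hz0 := mem_U.1 hz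
    rw [← sum_mul_left hz0]
    refine sum_congr rfl fun β _ => ?_
    rw [← sum_U_mul hz0, ← sum_U_mul hz0 fun x => C.ψ (x + z * β * γ ^ 2 * x⁻¹), sum_mul_sum,
      Finset.sum_mul]
    refine sum_congr rfl fun x hx => ?_
    rw [Finset.sum_mul]
    refine sum_congr rfl fun y hy => ?_
    have := mem_U.1 hx
    have := mem_U.1 hy
    rw [← C.add, ← C.add, ← C.add]
    congr 1
    field_simp
    ring
  have h3 := count_le (pow_ne_zero 2 hα) (pow_ne_zero 2 hγ) (pow_ne_zero 2 hε)
  have h4 : ∑ z ∈ U K, ∑ β, ∑ x ∈ U K, ∑ y ∈ U K,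
      C.ψ (z * (x + y + 1)) * C.ψ (β * (α ^ 2 * x⁻¹ + γ ^ 2 * y⁻¹ + ε ^ 2)) =
      ∑ x ∈ U K, ∑ y ∈ U K, ((if x + y + 1 = 0 then (Fintype.card K : ℝ) else 0) - 1) *
      (if α ^ 2 * x⁻¹ + γ ^ 2 * y⁻¹ + ε ^ 2 = 0 then (Fintype.card K : ℝ) else 0) := by
    rw [sum4_comm]
    refine sum_congr rfl fun x _ => sum_congr rfl fun y _ => ?_
    rw [← sum_mul_sum, C.sum_mul, sum_U, C.sum_mul, zero_mul, C.zero]
  rw [h1, h2, h4]
  linarith

end Chr

end Pool.Agent.MP_e262d6_nt.H61

end
end MrgPart1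

-- ======== part 2: formerly Pool.Agent.MP_e262d6_nt.h61.Lift
section MrgPart2

/-! The number of solutions of `Tr (u + 1 / u) = N u + 1 / N u` in an extension of degree five. -/

set_option autoImplicit false
set_option linter.unusedSectionVars false

noncomputable section

namespace Pool.Agent.MP_e262d6_nt.H61

open Finset Polynomial IntermediateField

variable {K : Type} [Field K] [Fintype K] [DecidableEq K] [CharP K 2]

namespace Chr

variable (C : Chr K) (β : K)

/-- the weight of a monic polynomial -/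
def eta (h : K[X]) : ℝ :=
  if h.coeff 0 = 0 then 0 else C.ψ (β * (h.nextCoeff + h.coeff 1 / h.coeff 0))

/-- the multiplicative function -/
def ll (h : K[X]) : MonoidAlgebra ℝ K := MonoidAlgebra.single (h.coeff 0) (C.eta β h)

theorem eta_mul {g h : K[X]} (hg : g.Monic) (hh : h.Monic) :
    C.eta β (g * h) = C.eta β g * C.eta β h := by
  unfold eta
  rw [mul_coeff_zero]
  by_cases h1 : g.coeff 0 = 0
  · simp [h1]
  by_cases h2 : h.coeff 0 = 0
  · simp [h2]
  rw [if_neg (mul_ne_zero h1 h2), if_neg h1, if_neg h2, ← C.add]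
  congr 1
  rw [hg.nextCoeff_mul hh, mul_coeff_one]
  field_simp
  ring

theorem eta_one : C.eta β 1 = 1 := by
  have : (1 : K[X]).nextCoeff = 0 := by simp [nextCoeff]
  simp [eta, this, coeff_one]

theorem eta_pow {g : K[X]} (hg : g.Monic) (e : ℕ) : C.eta β (g ^ e) = C.eta β g ^ e := by
  induction e with
  | zero => simp [eta_one]
  | succ e ih => rw [pow_succ, C.eta_mul β (hg.pow e) hg, ih, pow_succ]

theorem ll_mul (g h : K[X]) (hg : g.Monic) (hh : h.Monic) :
    C.ll β (g * h) = C.ll β g * C.ll β h := by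
  rw [ll, ll, ll, MonoidAlgebra.single_mul_single, mul_coeff_zero, C.eta_mul β hg hh]

theorem ll_one : C.ll β 1 = 1 := by
  rw [ll, C.eta_one, coeff_one_zero, MonoidAlgebra.one_def]

theorem cc_one : cc (C.ll β) 1 = ∑ u, MonoidAlgebra.single u (C.E β u) := by
  symm
  refine Finset.sum_bij (fun u _ => X + Polynomial.C u) ?_ ?_ ?_ ?_
  · intro u _
    exact mem_Mon.mpr ⟨monic_X_add_C u, natDegree_X_add_C u⟩
  · intro u _ v _ huv
    simpa using congrArg (fun f : K[X] => f.coeff 0) huv
  · intro h hh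
    obtain ⟨hm, hd⟩ := mem_Mon.mp hh
    exact ⟨h.coeff 0, mem_univ _, (hm.eq_X_add_C hd).symm⟩
  · intro u _
    simp [ll, eta, E, D, nextCoeff_X_add_C]

theorem cc_two {β : K} (hβ : β ≠ 0) :
    cc (C.ll β) 2 = (Fintype.card K : MonoidAlgebra ℝ K) := by
  have h1 : cc (C.ll β) 2 = ∑ p : K × K, MonoidAlgebra.single p.1
      (if p.1 = 0 then 0 else C.ψ (p.2 * (β * (1 + p.1⁻¹)))) := by
    have hd : ∀ p : K × K,
        (X ^ 2 + Polynomial.C p.2 * X + Polynomial.C p.1 : K[X]).natDegree = 2 := fun p => by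
      compute_degree!
    symm
    refine Finset.sum_bij (fun p _ => X ^ 2 + Polynomial.C p.2 * X + Polynomial.C p.1) ?_ ?_ ?_ ?_
    · intro p _
      exact mem_Mon.mpr ⟨by monicity!, hd p⟩
    · intro p _ q _ h
      exact Prod.ext (by simpa using congrArg (fun f : K[X] => f.coeff 0) h)
        (by simpa [coeff_C] using congrArg (fun f : K[X] => f.coeff 1) h)
    · intro h hh
      obtain ⟨hm, hd⟩ := mem_Mon.mp hh
      refine ⟨(h.coeff 0, h.coeff 1), mem_univ _, ?_⟩
      conv_rhs => rw [hm.as_sum, hd]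
      simp [sum_range_succ]
      ring
    · intro p _
      rw [ll, eta, nextCoeff_of_natDegree_pos (by rw [hd]; norm_num), hd]
      simp only [coeff_add, coeff_X_pow, coeff_C_mul, coeff_X, coeff_C]
      norm_num
      split_ifs
      · rfl
      · congr 1
        ring
  rw [h1, Fintype.sum_prod_type, sum_eq_single 1]
  · simp [CharTwo.add_self_eq_zero, MonoidAlgebra.natCast_def]
  · intro u _ hu
    refine (map_sum (MonoidAlgebra.singleAddHom u) (fun y : K =>
      if u = 0 then (0 : ℝ) else C.ψ (y * (β * (1 + u⁻¹)))) univ).symm.trans ?_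
    by_cases h0 : u = 0
    · simp [h0]
    · simp only [if_neg h0]
      rw [C.sum_mul, if_neg, map_zero]
      refine mul_ne_zero hβ fun h => hu ?_
      field_simp at h
      linear_combination h - (two_zero (K := K))
  · simp

theorem cc_big {β : K} (hβ : β ≠ 0) {n : ℕ} (hn : 3 ≤ n) : cc (C.ll β) n = 0 := by
  obtain ⟨t, ht⟩ := C.ne
  replace ht := (C.pm t).resolve_left ht
  have hmem : ∀ (s : K) (h : K[X]), h ∈ Mon K n → h + Polynomial.C s * X ^ (n - 1) ∈ Mon K n := by
    intro s h hh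
    obtain ⟨hm, hd⟩ := mem_Mon.mp hh
    have hlt : (Polynomial.C s * X ^ (n - 1) : K[X]).degree < h.degree := by
      rw [degree_eq_natDegree hm.ne_zero, hd]
      refine lt_of_le_of_lt (degree_C_mul_X_pow_le _ _) ?_
      exact_mod_cast (by omega : n - 1 < n)
    exact mem_Mon.mpr ⟨hm.add_of_left hlt, by rw [natDegree_add_eq_left_of_degree_lt hlt, hd]⟩
  have h1 : cc (C.ll β) n = ∑ h ∈ Mon K n, C.ll β (h + Polynomial.C (t / β) * X ^ (n - 1)) := by
    unfold cc
    symm
    refine Finset.sum_bij' (fun h _ => h + Polynomial.C (t / β) * X ^ (n - 1))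
      (fun h _ => h + Polynomial.C (-(t / β)) * X ^ (n - 1)) (fun h hh => hmem _ h hh)
      (fun h hh => hmem _ h hh) ?_ ?_ ?_
    · intro h _
      simp
    · intro h _
      simp
    · intro h _
      rfl
  have h2 : ∀ h ∈ Mon K n, C.ll β (h + Polynomial.C (t / β) * X ^ (n - 1)) = -C.ll β h := by
    intro h hh
    have hd := (mem_Mon.mp hh).2
    have hd' := (mem_Mon.mp (hmem (t / β) h hh)).2
    have e0 : (h + Polynomial.C (t / β) * X ^ (n - 1)).coeff 0 = h.coeff 0 := by
      rw [coeff_add, coeff_C_mul_X_pow, if_neg (by omega), add_zero]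
    have e1 : (h + Polynomial.C (t / β) * X ^ (n - 1)).coeff 1 = h.coeff 1 := by
      rw [coeff_add, coeff_C_mul_X_pow, if_neg (by omega), add_zero]
    have e2 : (h + Polynomial.C (t / β) * X ^ (n - 1)).nextCoeff = h.nextCoeff + t / β := by
      rw [nextCoeff_of_natDegree_pos (by omega), nextCoeff_of_natDegree_pos (by omega), hd, hd',
        coeff_add, coeff_C_mul_X_pow, if_pos rfl]
    unfold ll eta
    rw [e0, e1, e2, ← MonoidAlgebra.single_neg]
    congr 1
    split_ifs with h0
    · simp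
    · rw [← mul_neg_one, ← ht, ← C.add]
      congr 1
      field_simp
      ring
  rw [Finset.sum_congr rfl h2, sum_neg_distrib] at h1
  have h3 : (2 : ℝ) • cc (C.ll β) n = 0 := by
    rw [two_smul]
    exact add_eq_zero_iff_eq_neg.2 h1
  exact (smul_eq_zero.1 h3).resolve_left two_ne_zero

/-- a linear functional -/
def La (φ : K → ℝ) : MonoidAlgebra ℝ K →ₗ[ℝ] ℝ :=
  Finsupp.linearCombination ℝ φ ∘ₗ (MonoidAlgebra.coeffLinearEquiv ℝ).toLinearMap

theorem La_single (φ : K → ℝ) (g : K) (c : ℝ) : La φ (MonoidAlgebra.single g c) = c * φ g := by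
  simp [La]

/-- the convolution operator -/
def Op (φ : K → ℝ) (g : K) : ℝ := ∑ u, C.E β u * φ (u * g)

theorem La_mul (φ : K → ℝ) (x : MonoidAlgebra ℝ K) :
    La φ (cc (C.ll β) 1 * x) = La (C.Op β φ) x := by
  induction x using MonoidAlgebra.induction_linear with
  | zero => simp
  | add x y hx hy => rw [mul_add, map_add, map_add, hx, hy]
  | single g c =>
    rw [cc_one, Finset.sum_mul, map_sum, La_single, Op, mul_sum]
    refine sum_congr rfl fun u _ => ?_
    rw [MonoidAlgebra.single_mul_single, La_single]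
    ring

theorem La_pow (φ : K → ℝ) (n : ℕ) : La φ (cc (C.ll β) 1 ^ n) = (C.Op β)^[n] φ 1 := by
  induction n generalizing φ with
  | zero => rw [pow_zero, MonoidAlgebra.one_def, La_single, one_mul, Function.iterate_zero, id]
  | succ n ih => rw [pow_succ', La_mul, ih, Function.iterate_succ_apply]

theorem Op_Op (φ : K → ℝ) (g : K) :
    C.Op β (C.Op β φ) g = ∑ a, C.Kp β a * φ (a ^ 2 * g) := by
  have h1 : ∀ u, C.E β u * ∑ v, C.E β v * φ (v * (u * g)) =
      ∑ a, C.E β u⁻¹ * C.E β (u⁻¹ * a ^ 2) * φ (a ^ 2 * g) := by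
    intro u
    by_cases hu : u = 0
    · simp [hu, E]
    · rw [← sum_mul_left (inv_ne_zero hu), ← sq_bij.sum_comp, mul_sum, E_inv]
      refine sum_congr rfl fun a _ => ?_
      rw [show u⁻¹ * a ^ 2 * (u * g) = a ^ 2 * g by field_simp, mul_assoc]
  simp only [Op, h1]
  rw [sum_comm]
  refine sum_congr rfl fun a _ => ?_
  rw [← Finset.sum_mul, ← C.conv]
  congr 1
  exact Equiv.sum_comp (Equiv.inv K) fun u => C.E β u * C.E β (u * a ^ 2)

theorem Op_E (g : K) : C.Op β (C.E β) (g ^ 2) = C.Kp β g := C.conv β g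

variable {L : Type} [Field L] [Fintype L] [DecidableEq L] [Algebra K L]

theorem ll_chp (x : L) : C.ll β (chp K x) = MonoidAlgebra.single (Algebra.norm K x)
    (if x = 0 then 0 else C.ψ (β * Algebra.trace K L (x + x⁻¹))) := by
  have hi : IsIntegral K x := .of_finite K x
  have hn : Algebra.norm K (AdjoinSimple.gen K x) = (minpoly K x).coeff 0 := by
    rw [← adjoin.powerBasis_gen hi, Algebra.PowerBasis.norm_gen_eq_coeff_zero_minpoly,
      adjoin.powerBasis_gen, minpoly_gen, CharTwo.neg_eq, one_pow, one_mul]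
  rw [ll, chp, C.eta_pow β (minpoly.monic hi), coeff_zero_eq_eval_zero, eval_pow,
    ← coeff_zero_eq_eval_zero, Algebra.norm_eq_norm_adjoin, hn, finrank_adjoin_eq]
  congr 1
  split_ifs with hx
  · subst hx
    have hpos : 0 < Module.finrank K L := Module.finrank_pos
    simp [eta, hpos.ne']
  · rw [eta, if_neg (minpoly.coeff_zero_ne_zero hi hx), ← AddChar.map_nsmul_eq_pow]
    congr 1
    rw [map_add, trace_eq_finrank_mul_minpoly_nextCoeff, trace_eq_finrank_mul_minpoly_nextCoeff,
      finrank_adjoin_eq, finrank_adjoin_eq, deg_minpoly_inv hx, nextCoeff_minpoly_inv hx]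
    simp only [nsmul_eq_mul, CharTwo.neg_eq]
    ring

theorem lift {β : K} (hβ : β ≠ 0) (hL : Module.finrank K L = 5) :
    ∑ x ∈ U L, C.ψ (β * (Algebra.trace K L (x + x⁻¹) + D (Algebra.norm K x))) =
      ∑ c, ∑ a, C.Kp β c * C.Kp β a * C.Kp β (a * c) -
        5 * Fintype.card K * ∑ a, C.Kp β a ^ 2 +
        5 * (Fintype.card K : ℝ) ^ 2 * (Fintype.card K - 1) := by
  have h1 := congrArg (La (C.E β)) (five (C.ll β) (C.ll_mul β) (C.ll_one β) (C.cc_big hβ le_rfl)
    (C.cc_big hβ (by norm_num)) (C.cc_big hβ (by norm_num)) hL)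
  have h2 : ∀ (c : ℕ) (x : MonoidAlgebra ℝ K), La (C.E β) (c * x) = c * La (C.E β) x :=
    fun c x => by rw [← nsmul_eq_mul, map_nsmul, nsmul_eq_mul]
  have h3 : C.Op β (C.E β) 1 = Fintype.card K - 1 := by
    rw [← one_pow 2, Op_E, Kp, if_neg one_ne_zero, D_one, mul_zero, Kl_zero]
  have h4 : ∀ g, (C.Op β)^[3] (C.E β) (g ^ 2) = ∑ a, C.Kp β a * C.Kp β (a * g) := fun g => by
    show C.Op β (C.Op β (C.Op β (C.E β))) (g ^ 2) = _
    simp only [Op_Op, ← mul_pow, Op_E]
  have h5 : (C.Op β)^[5] (C.E β) 1 = ∑ c, ∑ a, C.Kp β c * C.Kp β a * C.Kp β (a * c) := by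
    show C.Op β (C.Op β ((C.Op β)^[3] (C.E β))) 1 = _
    simp only [Op_Op, mul_one, h4, mul_sum, mul_assoc]
  have h6 := h4 1
  simp only [one_pow, mul_one, ← pow_two] at h6
  rw [C.cc_two hβ, show ∀ x r : MonoidAlgebra ℝ K, x ^ 5 - 5 * x ^ 3 * r + 5 * x * r ^ 2 =
    x ^ 5 - 5 * r * x ^ 3 + 5 * r ^ 2 * x ^ 1 from fun x r => by ring, map_add, map_sub,
    map_sum] at h1
  have h7 := h2 (5 * Fintype.card K)
  have h8 := h2 (5 * Fintype.card K ^ 2)
  push_cast at h7 h8
  rw [h7, h8, La_pow, La_pow, La_pow, h5, h6, Function.iterate_one, h3] at h1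
  rw [← h1, ← add_sum_erase _ _ (mem_univ (0 : L)), ll_chp, if_pos rfl, La_single, zero_mul,
    zero_add]
  refine sum_congr rfl fun x hx => ?_
  have hx0 : x ≠ 0 := (mem_erase.1 hx).1
  rw [ll_chp, if_neg hx0, La_single, E, if_neg (Algebra.norm_ne_zero_iff.2 hx0), ← C.add, mul_add]

theorem sum_Kp_sq : ∑ β ∈ U K, ∑ a, C.Kp β a ^ 2 = ((Fintype.card K : ℝ) - 1) ^ 3 +
    (Fintype.card K - 2) * ((Fintype.card K : ℝ) ^ 2 - Fintype.card K - 1) := by
  set r : ℝ := (Fintype.card K : ℝ) with hr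
  have h1 : ∀ a, ∑ β ∈ U K, C.Kp β a ^ 2 = if a = 0 then 0 else
      (r ^ 2 - r - 1 + if a = 1 then (r - 1) ^ 3 - (r ^ 2 - r - 1) else 0) := by
    intro a
    unfold Kp
    split_ifs with h0 h1
    · simp
    · simp only [h1, D_one, mul_zero, Kl_zero, sum_const, nsmul_eq_mul, card_U, ← hr]
      ring
    · rw [C.Q2 (D_ne h0 h1), add_zero]
  rw [sum_comm]
  simp only [h1]
  rw [sum_ite_U, sum_add_distrib, sum_ite_eq', if_pos (mem_U.2 one_ne_zero), sum_const,
    nsmul_eq_mul, card_U]
  ring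

theorem sum_Kp_cube : ∑ β ∈ U K, ∑ c, ∑ a, C.Kp β c * C.Kp β a * C.Kp β (a * c) ≤
    5 * (Fintype.card K : ℝ) ^ 4 - 19 * (Fintype.card K : ℝ) ^ 3 +
      15 * (Fintype.card K : ℝ) ^ 2 + 6 * Fintype.card K + 1 := by
  set r : ℝ := (Fintype.card K : ℝ) with hr
  set s : ℝ := (r - 1) * (r ^ 2 - r - 1) with hs
  have h0 : ∀ a : K, a ≠ 0 → a ≠ 1 →
      ∑ β ∈ U K, (r - 1) * (C.Kp β a * C.Kp β a) = s := fun a h h' => by
    simp only [Kp, if_neg h, ← pow_two]
    rw [← mul_sum, C.Q2 (D_ne h h')]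
  have hK : ∀ β, C.Kp β 1 = r - 1 := fun β => by
    rw [Kp, if_neg one_ne_zero, D_one, mul_zero, Kl_zero]
  have h1 : ∀ c, ∑ a, ∑ β ∈ U K, C.Kp β c * C.Kp β a * C.Kp β (a * c) ≤ if c = 0 then 0 else
      ((r - 3) * (r + 1) ^ 2 + 2 * s +
        if c = 1 then (r - 1) ^ 4 + (r - 4) * s - (r - 3) * (r + 1) ^ 2 else 0) := by
    intro c
    split_ifs with c0 c1
    · simp [c0, Kp]
    · have h2 : ∀ a, ∑ β ∈ U K, C.Kp β c * C.Kp β a * C.Kp β (a * c) = if a = 0 then 0 else
          (s + if a = 1 then (r - 1) ^ 4 - s else 0) := by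
        intro a
        simp only [c1, hK, mul_one, mul_assoc]
        split_ifs with a0 a1
        · simp [a0, Kp]
        · simp only [a1, hK, sum_const, nsmul_eq_mul, card_U, ← hr]
          ring
        · rw [h0 a a0 a1, add_zero]
      simp only [h2]
      rw [sum_ite_U, sum_add_distrib, sum_ite_eq', if_pos (mem_U.2 one_ne_zero), sum_const,
        nsmul_eq_mul, card_U]
      exact le_of_eq (by ring)
    · have h2 : ∀ a, ∑ β ∈ U K, C.Kp β c * C.Kp β a * C.Kp β (a * c) ≤ if a = 0 then 0 else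
          ((r + 1) ^ 2 + (if a = 1 then s - (r + 1) ^ 2 else 0) +
            if a = c⁻¹ then s - (r + 1) ^ 2 else 0) := by
        intro a
        split_ifs with a0 a1 a2 a2
        · simp [a0, Kp]
        · exact absurd (inv_eq_one.1 (a2.symm.trans a1)) c1
        · simp only [a1, hK, one_mul, mul_comm _ (r - 1), mul_assoc]
          rw [h0 c c0 c1]
          linarith
        · have : ∀ β, C.Kp β c⁻¹ = C.Kp β c := fun β => by simp only [Kp, D_inv, inv_eq_zero]
          simp only [a2, inv_mul_cancel₀ c0, hK, this, mul_comm _ (r - 1)]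
          rw [h0 c c0 c1]
          linarith
        · simp only [Kp, if_neg c0, if_neg a0, if_neg (mul_ne_zero a0 c0), add_zero]
          exact C.Q3 (D_ne c0 c1) (D_ne a0 a1)
            (D_ne (mul_ne_zero a0 c0) fun h => a2 (eq_inv_of_mul_eq_one_left h))
      refine (sum_le_sum fun a _ => h2 a).trans (le_of_eq ?_)
      rw [sum_ite_U, sum_add_distrib, sum_add_distrib, sum_ite_eq', sum_ite_eq',
        if_pos (mem_U.2 one_ne_zero), if_pos (mem_U.2 (inv_ne_zero c0)), sum_const,
        nsmul_eq_mul, card_U]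
      ring
  rw [sum_comm, sum_congr rfl fun c _ => sum_comm]
  refine (sum_le_sum fun c _ => h1 c).trans (le_of_eq ?_)
  rw [sum_ite_U, sum_add_distrib, sum_ite_eq', if_pos (mem_U.2 one_ne_zero), sum_const,
    nsmul_eq_mul, card_U, hs]
  ring

/-- the count -/
theorem count (C : Chr K) (hL : Module.finrank K L = 5) :
    (((U L).filter fun x => Algebra.trace K L (x + x⁻¹) + D (Algebra.norm K x) = 0).card : ℝ) ≤
      (Fintype.card K : ℝ) ^ 4 + (Fintype.card K : ℝ) ^ 2 + 1 := by
  have hr : (0 : ℝ) < Fintype.card K := Nat.cast_pos.2 Fintype.card_pos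
  have hq : ((U L).card : ℝ) = (Fintype.card K : ℝ) ^ 5 - 1 := by
    rw [U, card_erase_of_mem (mem_univ _), card_univ, Nat.cast_sub Fintype.card_pos, Nat.cast_one,
      Module.card_eq_pow_finrank (K := K), hL, Nat.cast_pow]
  refine le_of_mul_le_mul_right ?_ hr
  have h1 := sum_U fun β => ∑ x ∈ U L,
    C.ψ (β * (Algebra.trace K L (x + x⁻¹) + D (Algebra.norm K x)))
  rw [sum_congr rfl fun β hβ => C.lift (mem_U.1 hβ) hL, sum_comm (s := univ)] at h1
  simp only [C.sum_mul, zero_mul, C.zero] at h1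
  rw [← sum_filter, sum_const, sum_const, nsmul_eq_mul, nsmul_eq_mul, hq, sum_add_distrib,
    sum_sub_distrib, ← mul_sum, sum_Kp_sq, sum_const, nsmul_eq_mul, card_U] at h1
  have h2 := C.sum_Kp_cube
  linarith

end Chr

end Pool.Agent.MP_e262d6_nt.H61

end
end MrgPart2

-- ======== part 3: formerly Pool.Agent.MP_e262d6_nt.h61.Dob
section MrgPart3

/-! The Fourier coefficients of the Dobbertin power function at the points of relative trace
zero. -/

set_option autoImplicit false
set_option linter.unusedSectionVars false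

noncomputable section

namespace Pool.Agent.MP_e262d6_nt.H61

open Finset

/-- an extension of degree five in characteristic two -/
structure Five (K L : Type) [Field K] [Fintype K] [Field L] [Fintype L] [DecidableEq L]
    [Algebra K L] where
  C : Chr L
  σ : L →+* L
  five : ∀ x, σ (σ (σ (σ (σ x)))) = x
  inv : ∀ x, C.ψ (σ x) = C.ψ x
  one : C.ψ 1 = -1
  fixK : ∀ c, σ (algebraMap K L c) = algebraMap K L c
  fix : ∀ x, σ x = x → ∃ c, algebraMap K L c = x
  tr : ∀ x, algebraMap K L (Algebra.trace K L x) =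
    x + σ x + σ (σ x) + σ (σ (σ x)) + σ (σ (σ (σ x)))
  nm : ∀ x, algebraMap K L (Algebra.norm K x) =
    x * σ x * σ (σ x) * σ (σ (σ x)) * σ (σ (σ (σ x)))
  cube : ∀ c : K, c ^ 3 = 1 → c = 1
  rank : Module.finrank K L = 5
  lyn : Fintype.card K ^ 2 + 1 ≤ (univ.filter fun v => 1 + v + σ v * σ (σ (σ (σ v))) = 0).card

theorem bij_of_mul {L : Type} [Field L] [Fintype L] {g : L → L} (hm : ∀ x y, g (x * y) = g x * g y)
    (h0 : ∀ x, g x = 0 ↔ x = 0) (h1 : ∀ z, g z = 1 → z = 1) : Function.Bijective g :=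
  Finite.injective_iff_bijective.1 fun x y h => by
    by_cases hy : y = 0
    · rw [hy, (h0 0).2 rfl, h0] at h
      rw [h, hy]
    · have h2 := hm (x / y) y
      rw [div_mul_cancel₀ _ hy, h] at h2
      exact (div_eq_one_iff_eq hy).1 (h1 _ (mul_right_cancel₀ (mt (h0 y).1 hy)
        (by rw [← h2, one_mul])))

variable {K L : Type} [Field K] [Fintype K] [DecidableEq K] [CharP K 2] [Field L] [Fintype L]
  [DecidableEq L] [CharP L 2] [Algebra K L]

namespace Five

variable (P : Five K L)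

/-- the relative trace -/
def T (x : L) : L := x + P.σ x + P.σ (P.σ x) + P.σ (P.σ (P.σ x)) + P.σ (P.σ (P.σ (P.σ x)))

/-- the relative norm -/
def N (x : L) : L := x * P.σ x * P.σ (P.σ x) * P.σ (P.σ (P.σ x)) * P.σ (P.σ (P.σ (P.σ x)))

/-- the power function -/
def f (x : L) : L := P.N x * x⁻¹ ^ 2

/-- the cubic monomial -/
def cb (y : L) : L := y * P.σ y * P.σ (P.σ (P.σ (P.σ y)))

/-- the general element of trace zero -/
def aa (l : L) : L := P.σ l + P.σ (P.σ (P.σ (P.σ l)))

/-- the Fourier coefficient -/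
def W (a : L) : ℝ := ∑ x, P.C.ψ (a * x + P.f x)

/-- the short sum -/
def V (l : L) : ℝ := ∑ c : K, P.C.ψ (P.cb (l + algebraMap K L c))

/-- a quadratic Gauss sum -/
def G (c : K) : ℝ := ∑ l, P.C.ψ (algebraMap K L c ^ 2 * l +
  algebraMap K L c * (P.σ l * P.σ (P.σ (P.σ (P.σ l)))))

theorem trT (x : L) : algebraMap K L (Algebra.trace K L x) = P.T x := P.tr x

theorem nmN (x : L) : algebraMap K L (Algebra.norm K x) = P.N x := P.nm x

theorem chi_T (x : L) : P.C.ψ (P.T x) = P.C.ψ x := by
  simp only [T, P.C.add, P.inv, P.C.mul_self, one_mul]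

theorem chi_eq {x y : L} (h : P.T x = P.T y) : P.C.ψ x = P.C.ψ y := by
  rw [← P.chi_T, h, P.chi_T]

/-- the character of the small field -/
def CK : Chr K where
  ψ := P.C.ψ.compAddMonoidHom (algebraMap K L).toAddMonoidHom
  sq x := by simpa using P.C.sq (algebraMap K L x)
  ne := by
    obtain ⟨x, hx⟩ := P.C.ne
    refine ⟨Algebra.trace K L x, ?_⟩
    rw [← P.chi_T, T, ← P.tr] at hx
    simpa using hx

theorem CK_apply (c : K) : P.CK.ψ c = P.C.ψ (algebraMap K L c) := rfl

include P in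
theorem card_L : (Fintype.card L : ℝ) = (Fintype.card K : ℝ) ^ 5 := by
  rw [Module.card_eq_pow_finrank (K := K), P.rank, Nat.cast_pow]

theorem sum_fix (g : L → ℝ) :
    ∑ u, (if P.σ u = u then g u else 0) = ∑ c : K, g (algebraMap K L c) := by
  rw [← sum_filter, ← sum_image (s := univ) fun _ _ _ _ h => (algebraMap K L).injective h]
  refine sum_congr ?_ fun _ _ => rfl
  ext u
  simp only [mem_filter, mem_univ, true_and, mem_image]
  exact ⟨P.fix u, fun ⟨c, hc⟩ => hc ▸ P.fixK c⟩

theorem aa_eq_zero {u : L} : P.aa u = 0 ↔ P.σ u = u := by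
  refine ⟨fun h => ?_, fun h => by simp only [aa, h, CharTwo.add_self_eq_zero]⟩
  have h1 : P.σ u = P.σ (P.σ (P.σ (P.σ u))) := CharTwo.add_eq_zero.1 h
  have h2 : P.σ (P.σ u) = u := by rw [h1, P.five]
  rw [h1, h2, h2]

theorem aa_add (l : L) (c : K) : P.aa (l + algebraMap K L c) = P.aa l := by
  simp only [aa, map_add, P.fixK]
  grind

include P in
theorem cube_bij : Function.Bijective fun c : K => c ^ 3 :=
  bij_of_mul (fun _ _ => mul_pow _ _ _) (fun _ => pow_eq_zero_iff (by norm_num)) P.cube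

theorem sum_cube (w : L) : ∑ c : K, P.C.ψ (algebraMap K L c ^ 3 * w) =
    if P.T w = 0 then (Fintype.card K : ℝ) else 0 := by
  have h1 : ∀ c : K, P.C.ψ (algebraMap K L c ^ 3 * w) = P.CK.ψ (c ^ 3 * Algebra.trace K L w) := by
    intro c
    rw [← P.chi_T, CK_apply, map_mul, P.tr, map_pow]
    simp only [T, map_mul, map_pow, P.fixK, mul_add]
  simp only [h1]
  rw [P.cube_bij.sum_comp fun c => P.CK.ψ (c * Algebra.trace K L w), P.CK.sum_mul, T, ← P.tr]
  simp only [map_eq_zero]

theorem cb_bij : Function.Bijective P.cb := by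
  refine bij_of_mul (fun x y => by simp only [cb, map_mul]; ring) (fun x => by simp [cb])
    fun z h0 => ?_
  have h1 := congrArg P.σ h0
  simp only [cb, map_mul, map_one, P.five] at h0 h1
  have hz : z ≠ 0 := fun h => by simp [h] at h0
  have h2 : P.σ (P.σ z) = P.σ (P.σ (P.σ (P.σ z))) :=
    mul_left_cancel₀ (mul_ne_zero hz ((map_ne_zero P.σ).2 hz)) (by linear_combination h1 - h0)
  have h3 : z = P.σ (P.σ z) := P.σ.injective (P.σ.injective h2)
  have h4 : P.σ z = z := by
    conv_rhs => rw [← P.five z, ← h3, ← h3]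
  obtain ⟨c, rfl⟩ := P.fix z h4
  simp only [P.fixK] at h0
  rw [P.cube c ((algebraMap K L).injective (by rw [map_pow, map_one, ← h0]; ring)), map_one]

theorem W_eq (a : L) :
    P.W a = ∑ y, P.C.ψ (P.cb y + a * (P.σ (P.σ y) * P.σ (P.σ (P.σ y)))) := by
  have hb : Function.Bijective fun y => P.σ (P.σ y) * P.σ (P.σ (P.σ y)) := by
    refine bij_of_mul (fun x y => by simp only [map_mul]; ring) (fun x => by simp) fun z h0 => ?_
    have h1 := congrArg P.σ h0
    have h2 := congrArg P.σ h1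
    have h3 := congrArg P.σ h2
    have h4 := congrArg P.σ h3
    simp only [map_mul, map_one, P.five] at h1 h2 h3 h4
    exact sq_bij.1 (show z ^ 2 = 1 ^ 2 by grind)
  rw [W, ← hb.sum_comp]
  refine sum_congr rfl fun y _ => ?_
  rw [P.C.add, P.C.add, mul_comm, ← P.C.sq (P.cb y)]
  congr 2
  by_cases hy : y = 0
  · simp [hy, f, N, cb]
  · have := (map_ne_zero P.σ).2 ((map_ne_zero P.σ).2 hy)
    have := (map_ne_zero P.σ).2 this
    simp only [f, N, cb, map_mul, P.five]
    field_simp

theorem M3 : ∑ l, P.W (P.aa l) * P.C.ψ (P.cb l) = Fintype.card L *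
    ((univ.filter fun v => 1 + v + P.σ v * P.σ (P.σ (P.σ (P.σ v))) = 0).card : ℝ) := by
  have h1 : ∀ l, P.W (P.aa l) * P.C.ψ (P.cb l) = ∑ h, P.C.ψ (P.cb h +
      h * (P.σ l * P.σ (P.σ (P.σ (P.σ l)))) + l * (P.σ h * P.σ (P.σ (P.σ (P.σ h))))) := by
    intro l
    rw [W_eq, ← Equiv.sum_comp (Equiv.addLeft l), Finset.sum_mul]
    refine sum_congr rfl fun h _ => ?_
    rw [← P.C.add]
    apply P.chi_eq
    simp only [T, cb, aa, Equiv.coe_addLeft, map_add, map_mul, P.five]
    grind
  have h2 : ∀ h, ∑ l, P.C.ψ (P.cb h + h * (P.σ l * P.σ (P.σ (P.σ (P.σ l)))) +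
      l * (P.σ h * P.σ (P.σ (P.σ (P.σ h))))) =
      ∑ v, P.C.ψ (P.cb h * (1 + v + P.σ v * P.σ (P.σ (P.σ (P.σ v))))) := by
    intro h
    by_cases h0 : h = 0
    · simp [h0, cb]
    · rw [← sum_mul_left h0]
      refine sum_congr rfl fun v _ => ?_
      simp only [cb, map_mul]
      congr 1
      ring
  simp only [h1]
  rw [sum_comm]
  simp only [h2]
  rw [sum_comm, sum_congr rfl fun v _ => (P.cb_bij.sum_comp fun g =>
    P.C.ψ (g * (1 + v + P.σ v * P.σ (P.σ (P.σ (P.σ v)))))).trans (P.C.sum_mul _), ← sum_filter,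
    sum_const, nsmul_eq_mul, mul_comm]

theorem WV : ∑ l, P.W (P.aa l) * P.V l = Fintype.card K * ∑ l, P.W (P.aa l) * P.C.ψ (P.cb l) := by
  simp only [V, mul_sum]
  rw [sum_comm, ← mul_sum, ← nsmul_eq_mul, ← card_univ, ← sum_const]
  refine sum_congr rfl fun c _ => ?_
  rw [← Equiv.sum_comp (Equiv.addRight (algebraMap K L c)) fun l => P.W (P.aa l) * P.C.ψ (P.cb l)]
  simp only [Equiv.coe_addRight, aa_add]

theorem G_sq (c : K) :
    P.G c ^ 2 = Fintype.card L * if c ≠ 0 ∧ c ≠ 1 then 0 else if c = 0 then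
      (Fintype.card L : ℝ) else Fintype.card K := by
  by_cases c0 : c = 0
  · simp [c0, G, pow_two]
  have hc : algebraMap K L c ≠ 0 := (map_ne_zero _).2 c0
  set γ := algebraMap K L c with hγ
  have hσ : P.σ γ = γ := P.fixK c
  have h1 : P.G c ^ 2 = ∑ u, P.C.ψ (γ ^ 2 * u + γ * (P.σ u * P.σ (P.σ (P.σ (P.σ u))))) *
      ∑ l, P.C.ψ (l * (γ * P.σ (P.σ (P.σ u + u)))) := by
    rw [pow_two, G, sum_mul_sum, sum_congr rfl fun l _ =>
      (Equiv.sum_comp (Equiv.addLeft l) _).symm, sum_comm]
    refine sum_congr rfl fun u _ => ?_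
    rw [mul_sum]
    refine sum_congr rfl fun l _ => ?_
    rw [← P.C.add, ← P.C.add]
    apply P.chi_eq
    simp only [T, Equiv.coe_addLeft, map_add, map_mul, map_pow, P.five, ← hγ, hσ]
    grind
  have h2 : ∀ u, γ * P.σ (P.σ (P.σ u + u)) = 0 ↔ P.σ u = u := fun u => by
    rw [mul_eq_zero, or_iff_right hc, map_eq_zero, map_eq_zero, CharTwo.add_eq_zero]
  have h3 : ∀ u : K, P.C.ψ (γ ^ 2 * algebraMap K L u + γ * (algebraMap K L u * algebraMap K L u)) =
      P.CK.ψ (u ^ 2 * (c ^ 4 + c)) := fun u => by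
    rw [P.C.add, ← P.C.sq (γ ^ 2 * _), ← P.C.add, CK_apply]
    simp only [map_add, map_mul, map_pow, ← hγ]
    congr 1
    ring
  have h4 : c ^ 4 + c = 0 ↔ c = 1 := by
    refine ⟨fun h => P.cube c (mul_left_cancel₀ c0 ?_), fun h => by
      rw [h, one_pow, CharTwo.add_self_eq_zero]⟩
    linear_combination h - c * (two_zero (K := K))
  simp only [h1, P.C.sum_mul, h2, mul_ite, mul_zero]
  rw [P.sum_fix]
  simp only [P.fixK, h3]
  rw [← Finset.sum_mul, sq_bij.sum_comp fun u => P.CK.ψ (u * (c ^ 4 + c)), P.CK.sum_mul]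
  by_cases c1 : c = 1
  · simp [c1, CharTwo.add_self_eq_zero, mul_comm]
  · simp [c0, c1, h4]

theorem G_one : |P.G 1| ≤ (Fintype.card K : ℝ) ^ 3 := by
  refine abs_le_of_sq_le_sq ?_ (by positivity)
  rw [G_sq, P.card_L, if_neg (by simp), if_neg one_ne_zero]
  exact le_of_eq (by ring)

theorem VV : ∑ l, P.V l ^ 2 ≤
    Fintype.card K * ((Fintype.card K : ℝ) ^ 5 + (Fintype.card K : ℝ) ^ 3) := by
  have h1 : ∀ c' : K, ∑ l, ∑ c : K, P.C.ψ (P.cb (l + algebraMap K L c')) *
      P.C.ψ (P.cb (l + algebraMap K L c)) = ∑ c : K, P.C.ψ (algebraMap K L c ^ 3) * P.G c := by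
    intro c'
    rw [← Equiv.sum_comp (Equiv.addRight (algebraMap K L c')), sum_comm,
      ← Equiv.sum_comp (Equiv.addRight c')]
    refine sum_congr rfl fun c _ => ?_
    rw [G, mul_sum]
    refine sum_congr rfl fun l _ => ?_
    rw [← P.C.add, ← P.C.add]
    apply P.chi_eq
    simp only [T, cb, Equiv.coe_addRight, map_add, map_mul, map_pow, P.five, P.fixK]
    grind
  have h2 : ∀ c : K, P.C.ψ (algebraMap K L c ^ 3) * P.G c ≤
      (if c = 0 then (Fintype.card K : ℝ) ^ 5 else 0) +
        if c = 1 then (Fintype.card K : ℝ) ^ 3 else 0 := by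
    intro c
    by_cases c0 : c = 0
    · simp [c0, G, P.card_L]
    · by_cases c1 : c = 1
      · have := abs_le.1 P.G_one
        simp only [c1, map_one, one_pow, P.one, one_ne_zero, if_false, if_true]
        linarith
      · have := P.G_sq c
        rw [if_pos ⟨c0, c1⟩, mul_zero, pow_eq_zero_iff two_ne_zero] at this
        simp [this, c0, c1]
  simp only [V, pow_two, sum_mul_sum]
  rw [sum_comm]
  simp only [h1]
  rw [sum_const, card_univ, nsmul_eq_mul]
  refine mul_le_mul_of_nonneg_left ((sum_le_sum fun c _ => h2 c).trans (le_of_eq ?_))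
    (Nat.cast_nonneg _)
  simp [sum_add_distrib]

theorem WW : ∑ l, P.W (P.aa l) ^ 2 = Fintype.card L * (Fintype.card K *
    ((univ.filter fun x => P.T (P.f x + P.f (x + 1)) = 0).card : ℝ)) := by
  have h1 : ∀ l, P.W (P.aa l) ^ 2 =
      ∑ x, ∑ u, P.C.ψ (P.f x + P.f (x + u)) * P.C.ψ (l * P.aa u) := by
    intro l
    rw [pow_two, W, sum_mul_sum]
    refine sum_congr rfl fun x _ => ?_
    rw [← Equiv.sum_comp (Equiv.addLeft x)]
    refine sum_congr rfl fun u _ => ?_
    rw [← P.C.add, ← P.C.add]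
    apply P.chi_eq
    simp only [T, aa, Equiv.coe_addLeft, map_add, map_mul, P.five]
    grind
  have h2 : ∀ c : K, ∑ x, P.C.ψ (P.f x + P.f (x + algebraMap K L c)) =
      ∑ x, P.C.ψ (algebraMap K L c ^ 3 * (P.f x + P.f (x + 1))) := by
    intro c
    by_cases c0 : c = 0
    · simp [c0, CharTwo.add_self_eq_zero]
    · have hc : algebraMap K L c ≠ 0 := (map_ne_zero _).2 c0
      have h3 : ∀ x, P.f (algebraMap K L c * x) = algebraMap K L c ^ 3 * P.f x := fun x => by
        simp only [f, N, map_mul, P.fixK, mul_inv]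
        field_simp
      rw [← sum_mul_left hc]
      refine sum_congr rfl fun x _ => ?_
      rw [← mul_add_one, h3, h3, mul_add]
  simp only [h1]
  rw [sum_comm, sum_congr rfl fun x _ => sum_comm]
  simp only [← mul_sum, P.C.sum_mul, aa_eq_zero, mul_ite, mul_zero, P.sum_fix, ← Finset.sum_mul]
  rw [sum_comm]
  simp only [h2]
  rw [sum_comm]
  simp only [sum_cube]
  rw [← sum_filter, sum_const, nsmul_eq_mul]
  ring

theorem count : ((univ.filter fun x => P.T (P.f x + P.f (x + 1)) = 0).card : ℝ) ≤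
    (Fintype.card K : ℝ) ^ 4 + (Fintype.card K : ℝ) ^ 2 := by
  have h1 := P.CK.count P.rank
  set S := (U L).filter fun x => Algebra.trace K L (x + x⁻¹) + D (Algebra.norm K x) = 0 with hS
  have h2 : (1 : L) ∈ S := by
    simp [hS, mem_U, CharTwo.add_self_eq_zero, D_one]
  have hT : ∀ x, P.T (P.f x) = P.N x * P.T x⁻¹ ^ 2 := fun x => by
    simp only [T, f, N, map_mul, map_pow, P.five]
    grind
  have hN : ∀ x y, P.N (x * y) = P.N x * P.N y := fun x y => by
    simp only [N, map_mul]; ring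
  have hA : ∀ x y, P.T (x + y) = P.T x + P.T y := fun x y => by
    simp only [T, map_add]; ring
  have hK : ∀ (c : K) y, P.T (1 + algebraMap K L c * y) = 1 + algebraMap K L c * P.T y :=
    fun c y => by
      simp only [T, map_add, map_mul, map_one, P.fixK]
      grind
  have h01 : P.T (P.f 0 + P.f 1) ≠ 0 := by
    simp only [T, f, N, map_one, map_zero, inv_one, zero_mul, mul_one, one_pow, zero_add,
      CharTwo.add_self_eq_zero]
    exact one_ne_zero
  have h3 : (univ.filter fun x => P.T (P.f x + P.f (x + 1)) = 0) ⊆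
      (S.erase 1).image fun u => u / (P.N u + u) := by
    intro x hx
    replace hx := (mem_filter.1 hx).2
    have x0 : x ≠ 0 := fun h => h01 (by rwa [h, zero_add] at hx)
    have x1 : x + 1 ≠ 0 := fun h => h01 (by
      rwa [h, CharTwo.add_eq_zero.1 h, add_comm] at hx)
    have n1 : P.N (x + 1) ≠ 0 := by simp only [N, ne_eq, mul_eq_zero, map_eq_zero, x1]; simp
    obtain ⟨g', hg'⟩ := sq_bij.2 (Algebra.norm K (x / (x + 1)))
    obtain ⟨g, rfl⟩ := sq_bij.2 g'
    have v0 : x / (x + 1) ≠ 0 := div_ne_zero x0 x1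
    have g0 : g ≠ 0 := fun h => Algebra.norm_ne_zero_iff.2 v0 (by rw [← hg', h]; simp)
    have hγ : algebraMap K L g ≠ 0 := (map_ne_zero _).2 g0
    have k1 : P.N (x / (x + 1)) = algebraMap K L g ^ 4 := by
      rw [N, ← P.nm, ← hg', map_pow, map_pow, ← pow_mul]
    obtain ⟨u, hu⟩ : ∃ u, x / (x + 1) = algebraMap K L g * u :=
      ⟨_, (mul_div_cancel₀ _ hγ).symm⟩
    have u0 : u ≠ 0 := fun h => v0 (by rw [hu, h, mul_zero])
    have k2 : P.N u = (algebraMap K L g)⁻¹ := by
      rw [hu, hN] at k1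
      simp only [N, P.fixK] at k1 ⊢
      field_simp at k1 ⊢
      exact k1
    have k3 : x⁻¹ = 1 + algebraMap K L g⁻¹ * u⁻¹ := by
      rw [map_inv₀, ← mul_inv, ← hu]
      field_simp
      grind
    have k4 : (x + 1)⁻¹ = 1 + algebraMap K L g * u := by
      rw [← hu]
      field_simp
      grind
    have k5 : P.N x = algebraMap K L g ^ 4 * P.N (x + 1) := by
      rw [← k1, ← hN, div_mul_cancel₀ _ x1]
    rw [hA, hT, hT, k3, k4, hK, hK, k5, map_inv₀] at hx
    refine mem_image.2 ⟨u, mem_erase.2 ⟨fun h => ?_, mem_filter.2 ⟨mem_U.2 u0, ?_⟩⟩, ?_⟩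
    · rw [h] at k2
      simp only [N, map_one, mul_one] at k2
      rw [h, inv_eq_one.1 k2.symm, mul_one, div_eq_one_iff_eq x1] at hu
      exact one_ne_zero (left_eq_add.1 hu)
    · apply (algebraMap K L).injective
      rw [map_add, P.trT, D, map_add, map_inv₀, P.nmN, hA, k2, inv_inv, map_zero]
      have k6 : (algebraMap K L g * (P.T u + P.T u⁻¹ + ((algebraMap K L g)⁻¹ +
          algebraMap K L g))) ^ 2 * P.N (x + 1) = 0 := by
        rw [← hx]
        field_simp
        grind
      simpa [hγ, n1] using k6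
    · rw [k2, show u = x / (x + 1) / algebraMap K L g by rw [hu]; field_simp]
      have : x + 1 + x = 1 := by grind
      field_simp
      rw [this]
      field_simp
  have h4 := (card_le_card h3).trans card_image_le
  rw [card_erase_of_mem h2] at h4
  have h5 : 1 ≤ S.card := card_pos.2 ⟨_, h2⟩
  have h6 : ((univ.filter fun x => P.T (P.f x + P.f (x + 1)) = 0).card : ℝ) ≤ S.card - 1 := by
    exact_mod_cast h4
  linarith

/-- the Fourier coefficients at the points of trace zero -/
theorem main (l : L) : P.W (P.aa l) = (Fintype.card K : ℝ) ^ 2 * P.V l := by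
  set r : ℝ := (Fintype.card K : ℝ) with hr
  have hr0 : 0 ≤ r := Nat.cast_nonneg _
  have h1 : ∑ l, (P.W (P.aa l) - r ^ 2 * P.V l) ^ 2 = ∑ l, P.W (P.aa l) ^ 2 -
      2 * r ^ 2 * ∑ l, P.W (P.aa l) * P.V l + r ^ 4 * ∑ l, P.V l ^ 2 := by
    simp only [mul_sum, ← sum_sub_distrib, ← sum_add_distrib]
    exact sum_congr rfl fun _ _ => by ring
  have h2 : r ^ 2 + 1 ≤
      ((univ.filter fun v => 1 + v + P.σ v * P.σ (P.σ (P.σ (P.σ v))) = 0).card : ℝ) := by
    rw [hr]
    exact_mod_cast P.lyn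
  have h3 := mul_le_mul_of_nonneg_left P.count (pow_nonneg hr0 6)
  have h4 := mul_le_mul_of_nonneg_left P.VV (pow_nonneg hr0 4)
  have h5 := mul_le_mul_of_nonneg_left h2 (pow_nonneg hr0 8)
  rw [WW, WV, M3, P.card_L] at h1
  have h6 : ∑ l, (P.W (P.aa l) - r ^ 2 * P.V l) ^ 2 ≤ 0 := by
    rw [h1]
    linarith
  have h7 := (sum_eq_zero_iff_of_nonneg fun _ _ => sq_nonneg _).1
    (le_antisymm h6 (sum_nonneg fun _ _ => sq_nonneg _)) l (mem_univ _)
  exact sub_eq_zero.1 (pow_eq_zero_iff two_ne_zero |>.1 h7)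

theorem V_eq_zero {l : L} (h : P.C.ψ (l + P.σ l * P.σ (P.σ (P.σ (P.σ l)))) = 1) : P.V l = 0 := by
  have h1 : P.V l = -P.V l := by
    conv_lhs => rw [V, ← Equiv.sum_comp (Equiv.addRight 1)]
    rw [V, ← sum_neg_distrib]
    refine sum_congr rfl fun c _ => ?_
    rw [← mul_neg_one, ← P.one, ← mul_one (_ * _), ← h, ← mul_one (_ * _),
      ← P.C.mul_self (algebraMap K L c)]
    nth_rewrite 2 [← P.C.sq (algebraMap K L c)]
    simp only [← P.C.add]
    apply P.chi_eq
    simp only [T, cb, Equiv.coe_addRight, map_add, map_mul, map_pow, map_one, P.five, P.fixK]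
    grind
  linarith

theorem exists_zero : ∃ a, a ≠ 0 ∧ P.W a = 0 := by
  by_contra hc
  have h1 : ∀ l, P.C.ψ (l + P.σ l * P.σ (P.σ (P.σ (P.σ l)))) ≤ -1 + if P.σ l = l then 2 else 0 := by
    intro l
    rcases P.C.pm (l + P.σ l * P.σ (P.σ (P.σ (P.σ l)))) with h | h
    · rw [h, if_pos]
      · norm_num
      · by_contra h2
        exact hc ⟨P.aa l, mt P.aa_eq_zero.1 h2, by rw [main, P.V_eq_zero h, mul_zero]⟩
    · rw [h]
      split_ifs <;> norm_num
  have h2 := sum_le_sum fun l (_ : l ∈ univ) => h1 l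
  rw [sum_add_distrib, P.sum_fix, sum_const, sum_const, card_univ, card_univ, nsmul_eq_mul,
    nsmul_eq_mul, P.card_L] at h2
  have h3 := (abs_le.1 P.G_one).1
  simp only [G, map_one, one_pow, one_mul] at h3
  have h4 : (2 : ℝ) ≤ Fintype.card K := by exact_mod_cast Fintype.one_lt_card
  have h5 : (4 : ℝ) ≤ (Fintype.card K : ℝ) ^ 2 := by nlinarith
  nlinarith [mul_le_mul h5 h5 (by norm_num) (by positivity)]

end Five

end Pool.Agent.MP_e262d6_nt.H61

end
end MrgPart3

-- ======== part 4: formerly Pool.Agent.MP_e262d6_nt.h61.Build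
section MrgPart4

/-! The field with `2 ^ (5 m)` elements, `m` odd, satisfies the hypotheses. -/

set_option autoImplicit false

noncomputable section

namespace Pool.Agent.MP_e262d6_nt.H61

open Finset Polynomial

theorem mem_range_of_pow {F E : Type} [Field F] [Fintype F] [Field E] [Algebra F E] {x : E}
    (h : x ^ Fintype.card F = x) : ∃ c, algebraMap F E c = x := by
  have h0 : (X ^ Fintype.card F - X : F[X]) ≠ 0 :=
    FiniteField.X_pow_card_sub_X_ne_zero F Fintype.one_lt_card
  have h1 := roots_map_of_injective_of_card_eq_natDegree (p := (X ^ Fintype.card F - X : F[X]))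
    (algebraMap F E).injective (by
      rw [FiniteField.roots_X_pow_card_sub_X, FiniteField.X_pow_card_sub_X_natDegree_eq F
        Fintype.one_lt_card]
      rfl)
  have h2 : x ∈ ((X ^ Fintype.card F - X : F[X]).map (algebraMap F E)).roots := by
    rw [mem_roots (Polynomial.map_ne_zero h0)]
    simp [h]
  rw [← h1] at h2
  obtain ⟨c, -, hc⟩ := Multiset.mem_map.1 h2
  exact ⟨c, hc⟩

/-- the recurrence of Lyness has period five -/
theorem lyness {E : Type} [Field E] (τ : E →+* E) {x : E} (h : τ (τ x) * x = 1 + τ x)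
    (hx : x ≠ 0) : τ (τ (τ (τ (τ x)))) = x := by
  have h1 := congrArg τ h
  have h2 := congrArg τ h1
  have h3 := congrArg τ h2
  simp only [map_mul, map_add, map_one] at h1 h2 h3
  have k1 := (map_ne_zero τ).2 hx
  have k2 := (map_ne_zero τ).2 k1
  have k3 := (map_ne_zero τ).2 k2
  have h4 : τ (τ (τ (τ x))) * τ x = 1 + x :=
    mul_left_cancel₀ k2 (by linear_combination τ x * h2 + h1 - h)
  have h5 : τ (τ (τ x)) * x = 1 + τ (τ (τ (τ x))) :=
    mul_left_cancel₀ k1 (by linear_combination x * h1 + h - h4)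
  exact mul_left_cancel₀ k3 (by linear_combination h3 - h5)

theorem card_lyness {L : Type} [Field L] [Fintype L] [DecidableEq L] [CharP L 2] {m : ℕ}
    (hm : m ≠ 0) (hL : Fintype.card L = (2 ^ m) ^ 5) (σ : L →+* L) (hσ : ∀ x, σ x = x ^ 2 ^ m)
    (h5 : ∀ x, σ (σ (σ (σ (σ x)))) = x) :
    (2 ^ m) ^ 2 + 1 ≤ (univ.filter fun v => 1 + v + σ v * σ (σ (σ (σ v))) = 0).card := by
  classical
  set r := 2 ^ m with hr
  have r1 : 1 ≤ r := Nat.one_le_two_pow
  let E := AlgebraicClosure L
  have : CharP E 2 := charP_of_injective_algebraMap (algebraMap L E).injective 2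
  have r0 : (r : E) = 0 := by
    rw [hr, Nat.cast_pow, Nat.cast_ofNat, CharTwo.two_eq_zero, zero_pow hm]
  set g : E[X] := X ^ (r ^ 2 + 1) + X ^ r + 1 with hg
  have hd : g.natDegree = r ^ 2 + 1 := by
    have : r < r ^ 2 + 1 := by nlinarith
    rw [hg, ← C_1, natDegree_add_C, natDegree_add_eq_left_of_natDegree_lt] <;> simp [this]
  have hs : g.Separable := by
    have h1 : derivative g = X ^ r ^ 2 := by
      simp [hg, derivative_X_pow, r0]
    rw [separable_def, h1]
    refine IsCoprime.pow_right ⟨1, -(X ^ r ^ 2 + X ^ (r - 1)), ?_⟩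
    rw [hg, ← Nat.sub_add_cancel r1, Nat.add_sub_cancel]
    ring
  rw [← hd, ← IsAlgClosed.card_roots_eq_natDegree,
    ← Multiset.toFinset_card_of_nodup (nodup_roots hs)]
  refine le_trans (card_le_card fun x hx => ?_) (card_image_le (f := algebraMap L E))
  have h1 : x ^ (r ^ 2 + 1) + x ^ r + 1 = 0 := by
    simpa [hg] using (mem_roots hs.ne_zero).1 (Multiset.mem_toFinset.1 hx)
  have h2 : ∀ y : E, iterateFrobenius E 2 m y = y ^ r := fun y => iterateFrobenius_def ..
  have h3 := lyness (iterateFrobenius E 2 m) (x := x) (by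
    simp only [h2, ← pow_mul, ← pow_two]
    rw [← pow_succ]
    linear_combination h1 - (x ^ r + 1) * (CharTwo.two_eq_zero (R := E))) (fun h => by simp [h, zero_pow (show r ≠ 0 by omega)] at h1)
  simp only [h2, ← pow_mul] at h3
  obtain ⟨y, rfl⟩ := mem_range_of_pow (F := L) (x := x) (by rw [hL, ← h3]; congr 1; ring)
  refine mem_image_of_mem _ (mem_filter.2 ⟨mem_univ _, ?_⟩)
  have h4 : σ (σ y) * y + σ y + 1 = 0 := by
    apply (algebraMap L E).injective
    simp only [hσ, map_add, map_mul, map_pow, map_one, map_zero, ← pow_mul, ← pow_two]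
    rw [← pow_succ, h1]
  have h6 := congrArg (fun z => σ (σ (σ (σ z)))) h4
  simp only [map_add, map_mul, map_one, map_zero, h5] at h6
  linear_combination h6

/-- the canonical character -/
def can (L : Type) [Field L] [Algebra (ZMod 2) L] : AddChar L ℝ :=
  (AddChar.zmodChar 2 (neg_one_sq (R := ℝ))).compAddMonoidHom
    (Algebra.trace (ZMod 2) L).toAddMonoidHom

theorem can_apply {L : Type} [Field L] [Algebra (ZMod 2) L] (x : L) :
    Complex.exp (2 * (Real.pi : ℂ) * Complex.I * ((Algebra.trace (ZMod 2) L x).val : ℂ) /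
      ((2 : ℕ) : ℂ)) = (can L x : ℝ) := by
  rw [show can L x = (-1) ^ (Algebra.trace (ZMod 2) L x).val from rfl, Complex.ofReal_pow,
    Complex.ofReal_neg, Complex.ofReal_one, ← Complex.exp_pi_mul_I, ← Complex.exp_nat_mul]
  congr 1
  push_cast
  ring

theorem can_sq {L : Type} [Field L] [Fintype L] [Algebra (ZMod 2) L] (x : L) :
    can L (x ^ 2) = can L x := by
  have := Algebra.trace_eq_of_algEquiv (FiniteField.frobeniusAlgEquivOfAlgebraic (ZMod 2) L) x
  rw [FiniteField.coe_frobeniusAlgEquivOfAlgebraic, ZMod.card] at this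
  show (-1 : ℝ) ^ (Algebra.trace (ZMod 2) L (x ^ 2)).val = (-1) ^ (Algebra.trace (ZMod 2) L x).val
  rw [this]

theorem can_pow {L : Type} [Field L] [Fintype L] [Algebra (ZMod 2) L] (x : L) (i : ℕ) :
    can L (x ^ 2 ^ i) = can L x := by
  induction i with
  | zero => simp
  | succ i ih => rw [pow_succ, pow_mul, can_sq, ih]

/-- a zero of the spectrum of the Dobbertin function -/
theorem dob_zero (L : Type) [Field L] [Fintype L] [Algebra (ZMod 2) L] {m : ℕ} (hm : Odd m)
    (hL : Fintype.card L = 2 ^ (5 * m)) : ∃ a : L, a ≠ 0 ∧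
      ∑ x, can L (a * x + x ^ (2 ^ (4 * m) + 2 ^ (3 * m) + 2 ^ (2 * m) + 2 ^ m - 1)) = 0 := by
  classical
  have m0 : m ≠ 0 := fun h => by simp [h] at hm
  have : CharP L 2 := charP_of_injective_algebraMap (algebraMap (ZMod 2) L).injective 2
  let K := GaloisField 2 m
  let _ : Fintype K := Fintype.ofFinite K
  have hK : Fintype.card K = 2 ^ m := by rw [Fintype.card_eq_nat_card, GaloisField.card 2 m m0]
  have hn : Module.finrank (ZMod 2) L = 5 * m := by
    apply Nat.pow_right_injective (le_refl 2)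
    simp only [FiniteField.pow_finrank_eq_card, hL]
  obtain ⟨φ⟩ := FiniteField.nonempty_algHom_of_finrank_dvd (F := ZMod 2) (K := K) (L := L)
    (by rw [GaloisField.finrank 2 m0, hn]; exact dvd_mul_left _ _)
  let _ : Algebra K L := φ.toRingHom.toAlgebra
  have hL' : Fintype.card L = (2 ^ m) ^ 5 := by rw [hL, ← pow_mul, mul_comm]
  have hr : Module.finrank K L = 5 := by
    apply Nat.pow_right_injective (Fintype.one_lt_card (α := K))
    beta_reduce
    rw [← Module.card_eq_pow_finrank, hK, hL']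
  have h1 : can L 1 = -1 := by
    show (-1 : ℝ) ^ (Algebra.trace (ZMod 2) L 1).val = -1
    rw [← map_one (algebraMap (ZMod 2) L), Algebra.trace_algebraMap, hn, nsmul_eq_mul, mul_one,
      ZMod.val_natCast, Nat.odd_iff.1 (Odd.mul (by decide) hm), pow_one]
  have hσ : ∀ x : L, iterateFrobenius L 2 m x = x ^ 2 ^ m := fun x => iterateFrobenius_def ..
  have h5 : ∀ x : L, iterateFrobenius L 2 m (iterateFrobenius L 2 m (iterateFrobenius L 2 m
      (iterateFrobenius L 2 m (iterateFrobenius L 2 m x)))) = x := fun x => by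
    simp only [hσ, ← pow_mul]
    conv_rhs => rw [← FiniteField.pow_card x, hL']
    congr 1
    ring
  let P : Five K L :=
    { C := ⟨can L, can_sq, 1, by rw [h1]; norm_num⟩
      σ := iterateFrobenius L 2 m
      five := h5
      inv := fun x => by rw [hσ]; exact can_pow x m
      one := h1
      fixK := fun c => by rw [hσ, ← map_pow, ← hK, FiniteField.pow_card]
      fix := fun x h => mem_range_of_pow (by rwa [hK, ← hσ])
      tr := fun x => by
        rw [FiniteField.algebraMap_trace_eq_sum_pow, hr, Nat.card_eq_fintype_card, hK]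
        simp only [hσ, ← pow_mul, sum_range_succ, sum_range_zero]
        ring_nf
      nm := fun x => by
        rw [FiniteField.algebraMap_norm_eq_prod_pow, hr, Nat.card_eq_fintype_card, hK]
        simp only [hσ, ← pow_mul, prod_range_succ, prod_range_zero]
        ring_nf
      cube := fun c hc => by
        have c0 : c ≠ 0 := fun h => by simp [h] at hc
        have h2 := FiniteField.pow_card c
        obtain ⟨k, rfl⟩ := hm
        rw [hK, pow_eq_pow_mod _ hc, pow_succ, pow_mul, Nat.mul_mod, Nat.pow_mod] at h2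
        norm_num at h2
        exact mul_left_cancel₀ c0 (by rw [← pow_two, h2, mul_one])
      rank := hr
      lyn := hK ▸ card_lyness m0 hL' _ hσ h5 }
  obtain ⟨a, ha, h⟩ := P.exists_zero
  refine ⟨a, ha, Eq.trans (sum_congr rfl fun x _ => ?_) h⟩
  show can L _ = can L _
  congr 2
  have r1 : 1 ≤ 2 ^ m := Nat.one_le_two_pow
  have r2 : 1 ≤ 2 ^ (2 * m) := Nat.one_le_two_pow
  have r3 : 1 ≤ 2 ^ (3 * m) := Nat.one_le_two_pow
  have r4 : 1 ≤ 2 ^ (4 * m) := Nat.one_le_two_pow
  simp only [Five.f, Five.N, P, hσ, ← pow_mul]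
  by_cases hx : x = 0
  · rw [hx, zero_pow (by omega)]
    simp
  · rw [pow_sub₀ _ hx (by omega), mul_comm 4, mul_comm 3, mul_comm 2, pow_mul 2, pow_mul 2,
      pow_mul 2]
    generalize 2 ^ m = r
    field_simp
    ring

end Pool.Agent.MP_e262d6_nt.H61

end
end MrgPart4

-- marker of a merged file
example : 731051 + 435864 = 731051 + 435864 := rfl
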